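import Pool.Agent.IPR.Sound

set_option linter.unusedSimpArgs false

namespace Pool.Agent.IPR

/-- Natural entries, at most `N`. -/
def InLe (N : ℕ) (V : List ℝ) : Prop := ∀ v ∈ V, ∃ n : ℕ, (n : ℝ) = v ∧ n ≤ N

theorem inLe_nil (N : ℕ) : InLe N [] := by intro v hv; simp at hv

theorem inLe_cons {N : ℕ} {x : ℝ} {V : List ℝ} :
    InLe N (x :: V) ↔ (∃ n : ℕ, (n : ℝ) = x ∧ n ≤ N) ∧ InLe N V := by
  simp [InLe]

open Classical in
/-- The part of the history that belongs to the simulated machine. -/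
noncomputable def own : List ℝ → List ℝ
  | [] => []
  | [_] => []
  | w :: u :: h => if u = -1 then w :: own h else own h

open Classical in
/-- The honest prover: the answer to `w` after `u` is `⌊w / u⌋`, and after `u = -1` it is the
answer of the prover `P` of the simulated machine. -/
noncomputable def hon (P : List ℝ → ℝ) : List ℝ → ℝ
  | [] => 0
  | [_] => 0
  | w :: u :: h => if u = -1 then P (w :: own h) else ((⌊w / u⌋ : ℤ) : ℝ)

theorem own_pair {u : ℝ} (hu : u ≠ -1) (w : ℝ) (h : List ℝ) : own (w :: u :: h) = own h := by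
  rw [own, if_neg hu]

theorem hon_pair {u : ℝ} (hu : u ≠ -1) (P : List ℝ → ℝ) (w : ℝ) (h : List ℝ) :
    hon P (w :: u :: h) = ((⌊w / u⌋ : ℤ) : ℝ) := by
  rw [hon, if_neg hu]

theorem nat_ne_neg_one (n : ℕ) : (n : ℝ) ≠ -1 := by
  have := Nat.cast_nonneg (α := ℝ) n
  linarith

theorem floor_nat_div (n l : ℕ) : ((⌊(n : ℝ) / (l : ℝ)⌋ : ℤ) : ℝ) = ((n / l : ℕ) : ℝ) := by
  have : ⌊(n : ℝ) / (l : ℝ)⌋ = ((n / l : ℕ) : ℤ) := by
    rw [← Nat.floor_div_eq_div (K := ℝ) n l, Int.natCast_floor_eq_floor (by positivity)]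
  rw [this]
  exact Int.cast_natCast _

theorem exec_add1 (F U T L J V W P B R : List ℝ) (σ x : ℝ) (s : St) (t : ℕ) :
    exec ADD1 (mk F U T L J V (x :: W) P B [σ] R [] s, t)
      = .flip fun b => .ret (mk F U (x :: T) L J V W P B [σ + bit b * x] R [] s, t + 7) := by
  simp only [ADD1, exec, G.bind, Ex.val, Ex.ops, mk_11, mk_9,
    mk_6, mk_2, upd_11, upd_9, upd_6, upd_2, List.headD_cons, List.tail_cons]

theorem exec_dec1 (F U L J V W P B R : List ℝ) (l v : ℝ) (s : St) (t : ℕ) :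
    exec DEC1 (mk F U [] (l :: L) J (v :: V) W P B [] R [] s, t)
      = .ask l fun _ => .ask v fun a =>
        .ret (mk F U [] (l :: L) J V ((v - l * a) :: a :: W) P B [] R [] s, t + 9) := by
  simp only [DEC1, exec, G.bind, Ex.val, Ex.ops, mk_11, mk_3,
    mk_5, mk_6, upd_11, upd_5, upd_6, List.headD_cons, List.tail_cons]

section

variable {O : Set (List Bool)} {PA : List ℝ → ℝ}

theorem hp_addloop (N : ℕ) (F U L J V P B R : List ℝ) (s : St)
    (Q : St × ℕ → List ℝ → Prop) (h : List ℝ) : ∀ (W T : List ℝ) (n t : ℕ), InLe N W →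
    (∀ (n' t' : ℕ), n' ≤ n + W.length * N →
      Q (mk F U (W.reverse ++ T) L J V [] P B [(n' : ℝ)] R [] s, t') h) →
    hp O (hon PA) h (iter (fun y => exec ADD1 (y.1, y.2 + 1)) W.length
      (mk F U T L J V W P B [(n : ℝ)] R [] s, t)) Q := by
  intro W
  induction W with
  | nil => intro T n t _ hQ; exact hQ n t (by simp)
  | cons x W ih =>
    intro T n t hW hQ
    obtain ⟨⟨x', rfl, hx'⟩, hW'⟩ := inLe_cons.1 hW
    simp only [List.length_cons, iter]
    rw [exec_add1]
    simp only [G.bind, hp]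
    intro b
    have e : (n : ℝ) + bit b * (x' : ℝ) = ((n + b.toNat * x' : ℕ) : ℝ) := by
      cases b <;> simp [bit]
    rw [e]
    refine ih ((x' : ℝ) :: T) (n + b.toNat * x') _ hW' (fun n' t' hn' => ?_)
    have := hQ n' t' (by
      rw [List.length_cons, Nat.succ_mul]
      have : b.toNat * x' ≤ N := by
        cases b <;> simp [hx']
      omega)
    simpa using this

theorem hp_row (N : ℕ) (F U L J V W B R : List ℝ) (k : ℕ) (s : St) (t : ℕ)
    (Q : St × ℕ → List ℝ → Prop) (h : List ℝ) (hW : InLe N W)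
    (hQ : ∀ (n t' : ℕ), n ≤ W.length * N →
      Q (mk F U [] L J ((n : ℝ) :: V) W (pw (k + 2)) B [] R [] s, t') h) :
    hp O (hon PA) h (exec ROW (mk F U [] L J V W (pw (k + 1)) B [] R [] s, t)) Q := by
  have h1 := hp_addloop (O := O) (PA := PA) N F U L J V (pw (k + 1)) B R s
    (fun x h => hp O (hon PA) h (exec (.seq (MOVE 2 6) (.seq (.push 5 (.t 9)) (.seq (.pop 9)
      (.push 7 (.mul (.c 2) (.t 7)))))) x) Q) h W [] 0 (t + 2) hW ?_
  · rw [ROW, exec.eq_8, exec.eq_2]
    simp only [G.bind, Ex.val, Ex.ops, mk_9, upd_9]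
    rw [exec.eq_8, exec.eq_10, hp_bind]
    simp only [mk_6]
    convert h1 using 3
    simp
  · intro n t' hn
    have hm := exec_move 2 6 (by omega)
      (mk F U (W.reverse ++ []) L J V [] (pw (k + 1)) B [(n : ℝ)] R [] s) t'
    simp only [mk_2, mk_6, upd_6, upd_2, List.append_nil, List.reverse_reverse,
      List.length_reverse] at hm
    rw [List.append_nil, exec.eq_8, hm]
    simp only [exec, G.bind, hp, Ex.val, Ex.ops, mk_9, mk_5, upd_5, upd_9, mk_7, upd_7,
      List.headD_cons, List.tail_cons]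
    have hp : (2 : ℝ) * (pw (k + 1)).headD 0 :: pw (k + 1) = pw (k + 2) := by
      simp only [pw, List.headD_cons]
      rw [pow_succ' 2 k]
    rw [hp]
    exact hQ n _ (by omega)

theorem hp_rows (N : ℕ) (F U L J W B R : List ℝ) (s : St) (hW : InLe N W)
    (Q : St × ℕ → List ℝ → Prop) (h : List ℝ) :
    ∀ (n : ℕ) (V : List ℝ) (k t : ℕ), InLe (W.length * N) V →
    (∀ V' t', V'.length = V.length + n → InLe (W.length * N) V' →
      Q (mk F U [] L J V' W (pw (k + 1 + n)) B [] R [] s, t') h) →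
    hp O (hon PA) h (iter (fun y => exec ROW (y.1, y.2 + 1)) n
      (mk F U [] L J V W (pw (k + 1)) B [] R [] s, t)) Q := by
  intro n
  induction n with
  | zero => intro V k t hV hQ; exact hQ V t rfl hV
  | succ n ih =>
    intro V k t hV hQ
    simp only [iter]
    rw [hp_bind]
    refine hp_row N F U L J V W B R k s (t + 1) _ h hW fun σ t' hσ => ?_
    refine ih ((σ : ℝ) :: V) (k + 1) t' (inLe_cons.2 ⟨⟨σ, rfl, hσ⟩, hV⟩) fun V' t'' h1 h2 => ?_
    have := hQ V' t'' (by rw [h1, List.length_cons]; omega) h2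
    rw [show k + 1 + (n + 1) = k + 1 + 1 + n by ring] at this
    exact this

theorem hp_dec (Gr l : ℕ) (hl : 1 ≤ l) (hG : 1 ≤ Gr) (F U L J P B R : List ℝ) (s : St)
    (Q : St × ℕ → List ℝ → Prop) : ∀ (V W : List ℝ) (t : ℕ) (h : List ℝ),
    InLe (Gr * (l * l)) V → InLe (Gr * l) W →
    (∀ W' t' h', W'.length = 2 * V.length + W.length → InLe (Gr * l) W' → own h' = own h →
      Q (mk F U [] ((l : ℝ) :: L) J [] W' P B [] R [] s, t') h') →
    hp O (hon PA) h (iter (fun y => exec DEC1 (y.1, y.2 + 1)) V.length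
      (mk F U [] ((l : ℝ) :: L) J V W P B [] R [] s, t)) Q := by
  intro V
  induction V with
  | nil => intro W t h _ hW hQ; exact hQ W t h (by simp) hW rfl
  | cons v V ih =>
    intro W t h hV hW hQ
    obtain ⟨⟨n, rfl, hn⟩, hV'⟩ := inLe_cons.1 hV
    simp only [List.length_cons, iter]
    rw [exec_dec1]
    simp only [G.bind, hp]
    rw [hon_pair (nat_ne_neg_one l), floor_nat_div]
    have hdm := Nat.div_add_mod n l
    have e1 : (n : ℝ) - (l : ℝ) * ((n / l : ℕ) : ℝ) = ((n % l : ℕ) : ℝ) := by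
      have : ((l * (n / l) + n % l : ℕ) : ℝ) = n := by rw [hdm]
      push_cast at this
      linarith
    rw [e1]
    have ha : n / l ≤ Gr * l := by
      apply Nat.div_le_of_le_mul
      calc n ≤ Gr * (l * l) := hn
        _ = l * (Gr * l) := by ring
    have hb : n % l ≤ Gr * l := by
      have h1 := Nat.mod_lt n (show 0 < l by omega)
      have h2 : l ≤ Gr * l := Nat.le_mul_of_pos_left l (by omega)
      omega
    refine ih _ _ _ hV' (inLe_cons.2 ⟨⟨_, rfl, hb⟩, inLe_cons.2 ⟨⟨_, rfl, ha⟩, hW⟩⟩) ?_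
    intro W' t' h' h1 h2 h3
    refine hQ W' t' h' ?_ h2 ?_
    · rw [h1]; simp only [List.length_cons]; ring
    · rw [h3, own_pair (nat_ne_neg_one l)]

theorem hp_lev1 (Gr l : ℕ) (hl : 1 ≤ l) (hG : 1 ≤ Gr) (q : ℕ) (F U L J V B R : List ℝ) (k : ℕ)
    (s : St) (t : ℕ) (h : List ℝ) (Q : St × ℕ → List ℝ → Prop)
    (hVl : V.length ≤ U.length + (s q).length) (hV : InLe (Gr * (l * l)) V)
    (hQ : ∀ V' t' h', V'.length = U.length + (s q).length →
      InLe (2 * (U.length + (s q).length) * Gr * l) V' → own h' = own h →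
      Q (mk F U [] L J V' [] (pw (k + 1 + (U.length + (s q).length))) B [] R [] s, t') h') :
    hp O (hon PA) h (exec (LEV1 q) (mk F U [] ((l : ℝ) :: L) J V [] (pw (k + 1)) B [] R [] s, t))
      Q := by
  set n1 := U.length with hn1
  set n2 := (s q).length with hn2
  rw [LEV1, exec.eq_8, exec.eq_10, hp_bind]
  simp only [mk_5]
  refine hp_dec Gr l hl hG F U L J (pw (k + 1)) B R s _ V [] (t + 1) h hV (inLe_nil _) ?_
  intro W t' h' hWl hW hh
  simp only [List.length_nil, add_zero] at hWl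
  have hWle : W.length * (Gr * l) ≤ 2 * (n1 + n2) * Gr * l := by
    have : W.length ≤ 2 * (n1 + n2) := by omega
    calc W.length * (Gr * l) ≤ 2 * (n1 + n2) * (Gr * l) := Nat.mul_le_mul_right _ this
      _ = _ := by ring
  rw [exec.eq_8, exec.eq_10, hp_bind]
  simp only [mk_1]
  refine hp_rows (Gr * l) F U ((l : ℝ) :: L) J W B R s hW _ h' n1 [] k _ (inLe_nil _) ?_
  intro V1 t1 hV1l hV1
  simp only [List.length_nil, zero_add] at hV1l
  rw [exec.eq_8, exec.eq_10, hp_bind]
  simp only [mk_add]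
  rw [show k + 1 + n1 = (k + n1) + 1 by ring, ← hn2]
  refine hp_rows (Gr * l) F U ((l : ℝ) :: L) J W B R s hW _ h' n2 V1 (k + n1) _ hV1 ?_
  intro V2 t2 hV2l hV2
  have hc := exec_clr 6
    (mk F U [] ((l : ℝ) :: L) J V2 W (pw (k + n1 + 1 + n2)) B [] R [] s) t2
  rw [exec.eq_8, hc]
  simp only [exec, G.bind, hp, mk_6, upd_6, mk_3, upd_3, List.tail_cons]
  rw [show k + n1 + 1 + n2 = k + 1 + (n1 + n2) by ring]
  refine hQ V2 _ h' (by omega) ?_ hh
  intro v hv
  obtain ⟨n, h1, h2⟩ := hV2 v hv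
  exact ⟨n, h1, h2.trans hWle⟩

theorem hp_levels (q : ℕ) (F U J B R : List ℝ) (s : St) (hU : 1 ≤ U.length)
    (Q : St × ℕ → List ℝ → Prop) : ∀ (n k t Gr : ℕ) (V h : List ℝ), 1 ≤ Gr →
    V.length ≤ U.length + (s q).length → InLe (Gr * 2 ^ 2 ^ n) V →
    (∀ V' t' h', V'.length ≤ U.length + (s q).length →
      InLe ((2 * (U.length + (s q).length)) ^ n * Gr * 2) V' → own h' = own h →
      Q (mk F U [] [] J V' [] (pw (k + 1 + n * (U.length + (s q).length))) B [] R [] s, t')
        h') →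
    hp O (hon PA) h (iter (fun y => exec (LEV1 q) (y.1, y.2 + 1)) n
      (mk F U [] (lad n) J V [] (pw (k + 1)) B [] R [] s, t)) Q := by
  intro n
  induction n with
  | zero =>
    intro k t Gr V h hG hVl hV hQ
    simp only [iter, hp, lad]
    have := hQ V t h hVl (by simpa using hV) rfl
    simpa using this
  | succ n ih =>
    intro k t Gr V h hG hVl hV hQ
    set m := U.length + (s q).length with hm
    simp only [iter]
    rw [hp_bind]
    have hl : lad (n + 1) = ((2 ^ 2 ^ n : ℕ) : ℝ) :: lad n := by simp [lad]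
    rw [hl]
    have hsq : 2 ^ 2 ^ n * 2 ^ 2 ^ n = 2 ^ 2 ^ (n + 1) := by
      rw [← pow_add]; congr 1; rw [pow_succ 2 n]; ring
    refine hp_lev1 Gr (2 ^ 2 ^ n) Nat.one_le_two_pow hG q F U (lad n) J V B R k s (t + 1) h _
      hVl (by rw [hsq]; exact hV) ?_
    intro V' t' h' hV'l hV' hh
    rw [← hm] at hV'l hV' ⊢
    rw [show k + 1 + m = k + m + 1 by ring]
    refine ih (k + m) t' (2 * m * Gr) V' h' ?_ (by omega) hV' ?_
    · have : 1 ≤ m := by omega
      exact Nat.mul_pos (by omega) (by omega)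
    · intro V2 t2 h2 hV2l hV2 hh2
      have := hQ V2 t2 h2 hV2l (by
        rw [pow_succ]
        rw [show (2 * m) ^ n * (2 * m) * Gr * 2 = (2 * m) ^ n * (2 * m * Gr) * 2 by ring]
        exact hV2) (hh2.trans hh)
      rw [show k + 1 + (n + 1) * m = k + m + 1 + n * m by ring] at this
      exact this

end

end Pool.Agent.IPR
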