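import Pool.Agent.IPR.Compl

set_option linter.unusedSimpArgs false

namespace Pool.Agent.IPR

variable {O : Set (List Bool)} {PA : List ℝ → ℝ}

theorem hp_msg (f J B c : ℝ) (U L : List ℝ) (s : St) (t : ℕ) (Q : St × ℕ → List ℝ → Prop)
    (h : List ℝ) (M : ℕ) (hM : ⌊J * c / 4⌋ = (M : ℤ)) (h1 : 0 ≤ J * c - 4 * (M : ℝ))
    (h2 : J * c - 4 * (M : ℝ) < 4)
    (hQ : ∀ t' h', own h' = own h → Q (mk [f] U [] L [J] [(M : ℝ)] [] (pw 1)
        [B] [] [J * c - 4 * (M : ℝ)] [] s, t') h') :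
    hp O (hon PA) h (exec (MSG c) (mk [f] U [] L [J] [] [] [] [B] [] [] [] s, t)) Q := by
  have hp1 : ([1] : List ℝ) = pw 1 := by simp [pw]
  have h3 : ¬ 0 ≤ J * c - 4 * (M : ℝ) - 4 := by
    intro h5; linarith
  have h4 : (4 : ℝ) ≠ -1 := by norm_num
  simp only [MSG, exec, G.bind, hp, Ex.val, Ex.ops, mk_0, mk_11, mk_10, mk_5, mk_7, mk_4,
    upd_0, upd_11, upd_10, upd_5, upd_7, List.headD_cons, List.tail_cons, hon_pair h4, hM,
    Int.cast_natCast, h1, h3, if_true, if_false]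
  rw [hp1]
  exact hQ _ _ (own_pair h4 _ _)

theorem two_mul_lt_pow (m : ℕ) (hm : 3 ≤ m) : 2 * m < 2 ^ m := by
  induction m, hm using Nat.le_induction with
  | base => norm_num
  | succ m hm ih => rw [pow_succ]; omega

theorem hp_ver (A : Set (List Bool)) (q j : ℕ) (f : ℝ) (U : List ℝ) (s : St) (t : ℕ)
    (h : List ℝ) (hU : 3 ≤ U.length) (Q : St × ℕ → List ℝ → Prop)
    (hQ : ∀ b t' h', (b = true ↔ s q ∈ emb A) → own h' = own h →
      Q (enc f U (Function.update s j (bit b :: s j)), t') h') :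
    hp O (hon PA) h (exec (VER (cst A) q j) (enc f U s, t)) Q := by
  set k := (s q).length with hk
  set m := U.length + k with hm
  obtain ⟨t1, ht1, e1⟩ := exec_read q [f] U s t
  rw [VER, exec.eq_8, hp_bind, enc, e1]
  simp only [hp]
  rw [exec.eq_8, hp_bind]
  obtain ⟨N, τ, hN, hτ0, hτ1, hsplit⟩ := cst_split A (rcode (s q))
  have hd0 := dig_nonneg A (rcode (s q))
  have hd1 := dig_le_one A (rcode (s q))
  have hM : ⌊4 ^ rcode (s q) * cst A / 4⌋ = (N : ℤ) := by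
    rw [Int.floor_eq_iff, hsplit]
    push_cast
    constructor <;> linarith
  refine hp_msg f (4 ^ rcode (s q)) (bfl (s q)) (cst A) U _ s t1 _ h N hM
    (by rw [hsplit]; linarith) (by rw [hsplit]; linarith) ?_
  intro t2 h2 hh2
  set ρ := 4 ^ rcode (s q) * cst A - 4 * (N : ℝ) with hρ
  rw [exec.eq_8, exec.eq_10, hp_bind]
  simp only [mk_3, lad_length]
  have hNle : N ≤ 2 ^ 2 ^ (k + 2) := by
    have h5 := rcode_lt (s q)
    calc N ≤ 4 ^ rcode (s q) := hN.le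
      _ ≤ 4 ^ 2 ^ (k + 1) := Nat.pow_le_pow_right (by norm_num) h5.le
      _ = 2 ^ 2 ^ (k + 2) := by
        rw [show (4 : ℕ) = 2 ^ 2 by norm_num, ← pow_mul]
        congr 1
        rw [pow_succ 2 (k + 1)]; ring
  refine hp_levels q [f] U [4 ^ rcode (s q)] [bfl (s q)] [ρ] s (by omega) _ (k + 2) 0 (t2 + 1) 1
    [(N : ℝ)] h2 le_rfl (by simp; omega) ?_ ?_
  · rw [one_mul]
    exact inLe_cons.2 ⟨⟨N, rfl, hNle⟩, inLe_nil _⟩
  · intro V' t3 h3 hV'l hV' hh3
    rw [← hk, ← hm] at hV' ⊢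
    obtain ⟨t4, -, e4⟩ := exec_tail f (4 ^ rcode (s q)) ρ U V' (0 + 1 + (k + 2) * m) j q s t3
    rw [e4, if_pos]
    · simp only [hp]
      refine hQ _ t4 h3 ?_ (hh3.trans hh2)
      rw [mem_emb_iff]
      have h7 := digit_of_int (A := A) (j := rcode (s q)) (M := (N : ℤ))
        (by push_cast; rw [hsplit]; linarith) (by push_cast; rw [hsplit]; linarith)
      rw [← h7]
      simp only [ansb, decide_eq_true_eq]
      push_cast
      tauto
    · intro v hv
      obtain ⟨n, rfl, hn⟩ := hV' v hv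
      refine rem_pw _ n (lt_of_le_of_lt hn ?_)
      have h5 : 2 * m < 2 ^ m := two_mul_lt_pow m (by omega)
      have h6 : (2 * m) ^ (k + 2) < (2 ^ m) ^ (k + 2) := Nat.pow_lt_pow_left h5 (by omega)
      rw [← pow_mul] at h6
      have h8 : 2 ^ (0 + 1 + (k + 2) * m) = 2 ^ (m * (k + 2)) * 2 := by
        rw [show 0 + 1 + (k + 2) * m = m * (k + 2) + 1 by ring, pow_succ]
      rw [h8]
      omega

end Pool.Agent.IPR
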