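import Pool.Agent.IPR.Defs

namespace Pool.Agent.IPR

/-- The number with binary digits `1z` (the digits of `z` reversed). -/
def code (z : List Bool) : ℕ := z.foldr (fun b j => 2 * j + b.toNat) 1

theorem code_nil : code [] = 1 := rfl

theorem code_cons (b : Bool) (z : List Bool) : code (b :: z) = 2 * code z + b.toNat := rfl

theorem code_pos (z : List Bool) : 1 ≤ code z := by
  induction z with
  | nil => exact le_rfl
  | cons b z ih => rw [code_cons]; omega

theorem code_inj : ∀ z w : List Bool, code z = code w → z = w := by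
  intro z
  induction z with
  | nil =>
    intro w h
    cases w with
    | nil => rfl
    | cons b w =>
      rw [code_nil, code_cons] at h
      have := code_pos w
      omega
  | cons b z ih =>
    intro w h
    cases w with
    | nil =>
      rw [code_nil, code_cons] at h
      have := code_pos z
      omega
    | cons b' w =>
      rw [code_cons, code_cons] at h
      have hb : b.toNat ≤ 1 := Bool.toNat_le b
      have hb' : b'.toNat ≤ 1 := Bool.toNat_le b'
      have h1 : code z = code w := by omega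
      have h2 : b.toNat = b'.toNat := by omega
      have h3 : b = b' := by cases b <;> cases b' <;> simp_all
      rw [h3, ih w h1]

open Classical in
/-- The code of a list of reals, every entry different from `1` being read as the bit `0`. -/
noncomputable def rcode (w : List ℝ) : ℕ :=
  w.foldr (fun y j => 2 * j + if y = 1 then 1 else 0) 1

open Classical in
theorem rcode_cons (y : ℝ) (w : List ℝ) :
    rcode (y :: w) = 2 * rcode w + if y = 1 then 1 else 0 := rfl

theorem rcode_map (z : List Bool) : rcode (z.map bit) = code z := by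
  induction z with
  | nil => rfl
  | cons b z ih =>
    rw [List.map_cons, rcode_cons, code_cons, ih]
    cases b <;> simp [bit]

theorem rcode_lt (w : List ℝ) : rcode w < 2 ^ (w.length + 1) := by
  induction w with
  | nil => simp [rcode]
  | cons y w ih =>
    rw [rcode_cons, List.length_cons, pow_succ]
    split_ifs <;> omega

/-- All entries are bits. -/
def IsB (w : List ℝ) : Prop := ∀ y ∈ w, y = 0 ∨ y = 1

theorem mem_emb_iff {A : Set (List Bool)} {w : List ℝ} :
    w ∈ emb A ↔ IsB w ∧ ∃ z ∈ A, code z = rcode w := by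
  constructor
  · rintro ⟨z, hz, rfl⟩
    refine ⟨?_, z, hz, (rcode_map z).symm⟩
    intro y hy
    obtain ⟨b, -, rfl⟩ := List.mem_map.1 hy
    cases b <;> simp [bit]
  · rintro ⟨h1, z, hz, h2⟩
    have : ∃ z' : List Bool, w = z'.map bit := by
      clear h2 hz
      induction w with
      | nil => exact ⟨[], rfl⟩
      | cons y w ih =>
        obtain ⟨z', hz'⟩ := ih fun v hv => h1 v (List.mem_cons_of_mem _ hv)
        rcases h1 y List.mem_cons_self with h | h
        · exact ⟨false :: z', by simp [bit, h, hz']⟩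
        · exact ⟨true :: z', by simp [bit, h, hz']⟩
    obtain ⟨z', rfl⟩ := this
    rw [rcode_map] at h2
    exact ⟨z', code_inj _ _ h2 ▸ hz, rfl⟩

open Classical in
/-- The digit sequence of a set. -/
noncomputable def dig (A : Set (List Bool)) (j : ℕ) : ℝ := if ∃ z ∈ A, code z = j then 1 else 0

theorem dig_nonneg (A : Set (List Bool)) (j : ℕ) : 0 ≤ dig A j := by
  unfold dig; split_ifs <;> norm_num

theorem dig_le_one (A : Set (List Bool)) (j : ℕ) : dig A j ≤ 1 := by
  unfold dig; split_ifs <;> norm_num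

/-- The machine constant that encodes `A`. -/
noncomputable def cst (A : Set (List Bool)) : ℝ := ∑' j : ℕ, dig A j * (1 / 4) ^ j

theorem summable_dig (A : Set (List Bool)) : Summable fun j => dig A j * (1 / 4 : ℝ) ^ j := by
  refine Summable.of_nonneg_of_le (fun j => mul_nonneg (dig_nonneg A j) (by positivity))
    (fun j => ?_) (summable_geometric_of_lt_one (r := (1 / 4 : ℝ)) (by norm_num) (by norm_num))
  have := dig_le_one A j
  nlinarith [pow_pos (show (0 : ℝ) < 1 / 4 by norm_num) j]

theorem part_sum (A : Set (List Bool)) (j : ℕ) :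
    ∃ N : ℕ, N < 4 ^ j ∧
      4 ^ j * ∑ i ∈ Finset.range j, dig A i * (1 / 4 : ℝ) ^ i = 4 * N := by
  classical
  induction j with
  | zero => exact ⟨0, by norm_num, by simp⟩
  | succ j ih =>
    obtain ⟨N, hN, h⟩ := ih
    refine ⟨4 * N + if ∃ z ∈ A, code z = j then 1 else 0, ?_, ?_⟩
    · rw [pow_succ]
      split_ifs <;> omega
    · rw [Finset.sum_range_succ, mul_add, pow_succ]
      have h2 : (4 : ℝ) ^ j * 4 * (dig A j * (1 / 4 : ℝ) ^ j) = 4 * dig A j := by
        have : (4 : ℝ) ^ j * (1 / 4 : ℝ) ^ j = 1 := by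
          rw [← mul_pow]; norm_num
        linear_combination (4 * dig A j) * this
      rw [h2]
      have h3 : (4 : ℝ) ^ j * 4 * ∑ i ∈ Finset.range j, dig A i * (1 / 4 : ℝ) ^ i
          = 4 * (4 * N) := by rw [← h]; ring
      rw [h3]
      unfold dig
      push_cast
      split_ifs <;> ring

theorem tail_bound (A : Set (List Bool)) (j : ℕ) :
    0 ≤ 4 ^ j * ∑' i : ℕ, dig A (i + (j + 1)) * (1 / 4 : ℝ) ^ (i + (j + 1)) ∧
      4 ^ j * ∑' i : ℕ, dig A (i + (j + 1)) * (1 / 4 : ℝ) ^ (i + (j + 1)) < 1 := by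
  constructor
  · exact mul_nonneg (by positivity) (tsum_nonneg fun i =>
      mul_nonneg (dig_nonneg A _) (by positivity))
  · rw [← tsum_mul_left]
    have hs : Summable fun i : ℕ => (1 / 4 : ℝ) * (1 / 4) ^ i :=
      (summable_geometric_of_lt_one (r := (1 / 4 : ℝ)) (by norm_num) (by norm_num)).mul_left _
    have hle : ∀ i : ℕ, 4 ^ j * (dig A (i + (j + 1)) * (1 / 4 : ℝ) ^ (i + (j + 1)))
        ≤ (1 / 4 : ℝ) * (1 / 4) ^ i := by
      intro i
      have h1 : (4 : ℝ) ^ j * (1 / 4 : ℝ) ^ j = 1 := by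
        rw [← mul_pow]; norm_num
      have h2 : 4 ^ j * (dig A (i + (j + 1)) * (1 / 4 : ℝ) ^ (i + (j + 1)))
          = dig A (i + (j + 1)) * ((1 / 4 : ℝ) * (1 / 4) ^ i) := by
        rw [pow_add, pow_succ]
        linear_combination (dig A (i + (j + 1)) * (1 / 4 : ℝ) ^ i * (1 / 4)) * h1
      rw [h2]
      have := dig_le_one A (i + (j + 1))
      have h3 : (0 : ℝ) < 1 / 4 * (1 / 4) ^ i := by positivity
      nlinarith
    have hs1 : Summable fun i : ℕ =>
        4 ^ j * (dig A (i + (j + 1)) * (1 / 4 : ℝ) ^ (i + (j + 1))) :=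
      Summable.of_nonneg_of_le (fun i => mul_nonneg (by positivity)
        (mul_nonneg (dig_nonneg A _) (by positivity))) hle hs
    calc _ ≤ ∑' i : ℕ, (1 / 4 : ℝ) * (1 / 4) ^ i := hs1.tsum_le_tsum hle hs
      _ = 1 / 3 := by
        rw [tsum_mul_left, tsum_geometric_of_lt_one (by norm_num) (by norm_num)]; norm_num
      _ < 1 := by norm_num

theorem cst_split (A : Set (List Bool)) (j : ℕ) :
    ∃ (N : ℕ) (τ : ℝ), N < 4 ^ j ∧ 0 ≤ τ ∧ τ < 1 ∧ 4 ^ j * cst A = 4 * N + dig A j + τ := by
  obtain ⟨N, hN, h⟩ := part_sum A j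
  obtain ⟨h1, h2⟩ := tail_bound A j
  refine ⟨N, _, hN, h1, h2, ?_⟩
  have h3 := (summable_dig A).sum_add_tsum_nat_add (j + 1)
  unfold cst
  rw [← h3, Finset.sum_range_succ, mul_add, mul_add, h]
  have h4 : (4 : ℝ) ^ j * (dig A j * (1 / 4 : ℝ) ^ j) = dig A j := by
    have : (4 : ℝ) ^ j * (1 / 4 : ℝ) ^ j = 1 := by
      rw [← mul_pow]; norm_num
    linear_combination (dig A j) * this
  rw [h4]

/-- Only the integer part matters. -/
theorem digit_of_int {A : Set (List Bool)} {j : ℕ} {M : ℤ}
    (h0 : 0 ≤ 4 ^ j * cst A - 4 * (M : ℝ)) (h4 : 4 ^ j * cst A - 4 * (M : ℝ) < 4) :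
    (1 ≤ 4 ^ j * cst A - 4 * (M : ℝ)) ↔ ∃ z ∈ A, code z = j := by
  obtain ⟨N, τ, hN, h1, h2, h⟩ := cst_split A j
  have hd0 := dig_nonneg A j
  have hd1 := dig_le_one A j
  rw [h] at h0 h4 ⊢
  have e1 : ((N : ℤ) : ℝ) - M < 1 := by push_cast; linarith
  have e2 : -1 < ((N : ℤ) : ℝ) - M := by push_cast; linarith
  have e3 : (N : ℤ) - M < 1 := by exact_mod_cast e1
  have e4 : -1 < (N : ℤ) - M := by exact_mod_cast e2
  have e5 : M = N := by omega
  rw [e5]
  push_cast
  unfold dig
  split_ifs with hd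
  · simp only [hd, iff_true]; linarith
  · simp only [hd, iff_false]; linarith

end Pool.Agent.IPR
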