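import Mathlib

namespace Pool.Agent.IPR

/-- States of a machine: stacks of reals, numbered by the natural numbers. -/
abbrev St := ℕ → List ℝ

/-- Polynomial expressions in real constants and in the tops of the stacks. -/
inductive Ex : Type
  | c (a : ℝ) : Ex
  | t (i : ℕ) : Ex
  | add (e f : Ex) : Ex
  | sub (e f : Ex) : Ex
  | mul (e f : Ex) : Ex

/-- Value of an expression; the top of an empty stack is `0`. -/
def Ex.val (s : St) : Ex → ℝ
  | .c a => a
  | .t i => (s i).headD 0
  | .add e f => e.val s + f.val s
  | .sub e f => e.val s - f.val s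
  | .mul e f => e.val s * f.val s

/-- Number of arithmetic operations of an expression. -/
def Ex.ops : Ex → ℕ
  | .c _ => 0
  | .t _ => 0
  | .add e f => e.ops + f.ops + 1
  | .sub e f => e.ops + f.ops + 1
  | .mul e f => e.ops + f.ops + 1

/-- Programs. `push i e`: put the value of `e` on stack `i`; `set i e`: replace the top of
stack `i` by the value of `e`; `flip i`: put a random bit on stack `i`; `ask i e`: send the value
of `e` to the prover and put its answer on stack `i`; `qry i j`: put on stack `j` the answer of
the oracle to the word on stack `i`; `ite e C D`: if `e ≥ 0` then `C` else `D`;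
`loop i C`: do `C` as many times as stack `i` has entries at the start. -/
inductive Cmd : Type
  | skip : Cmd
  | push (i : ℕ) (e : Ex) : Cmd
  | set (i : ℕ) (e : Ex) : Cmd
  | pop (i : ℕ) : Cmd
  | flip (i : ℕ) : Cmd
  | ask (i : ℕ) (e : Ex) : Cmd
  | qry (i j : ℕ) : Cmd
  | seq (C D : Cmd) : Cmd
  | ite (e : Ex) (C D : Cmd) : Cmd
  | loop (i : ℕ) (C : Cmd) : Cmd

/-- Interaction trees. -/
inductive G (α : Type) : Type
  | ret (a : α) : G α
  | flip (k : Bool → G α) : G α
  | ask (w : ℝ) (k : ℝ → G α) : G α
  | qry (w : List ℝ) (k : Bool → G α) : G α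

def G.bind {α β : Type} : G α → (α → G β) → G β
  | .ret a, g => g a
  | .flip k, g => .flip fun b => (k b).bind g
  | .ask w k, g => .ask w fun y => (k y).bind g
  | .qry w k, g => .qry w fun b => (k b).bind g

def iter {α : Type} (f : α → G α) : ℕ → α → G α
  | 0, x => .ret x
  | n + 1, x => (f x).bind (iter f n)

/-- The real number of a bit. -/
def bit (b : Bool) : ℝ := if b then 1 else 0

/-- The run of a program from a state, with the number of steps made so far. -/
noncomputable def exec : Cmd → St × ℕ → G (St × ℕ)
  | .skip, x => .ret x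
  | .push i e, x => .ret (Function.update x.1 i (e.val x.1 :: x.1 i), x.2 + e.ops + 1)
  | .set i e, x => .ret (Function.update x.1 i (e.val x.1 :: (x.1 i).tail), x.2 + e.ops + 1)
  | .pop i, x => .ret (Function.update x.1 i (x.1 i).tail, x.2 + 1)
  | .flip i, x => .flip fun b => .ret (Function.update x.1 i (bit b :: x.1 i), x.2 + 1)
  | .ask i e, x => .ask (e.val x.1) fun y =>
      .ret (Function.update x.1 i (y :: x.1 i), x.2 + e.ops + 1)
  | .qry i j, x => .qry (x.1 i) fun b =>
      .ret (Function.update x.1 j (bit b :: x.1 j), x.2 + 1)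
  | .seq C D, x => (exec C x).bind (exec D)
  | .ite e C D, x =>
      if 0 ≤ e.val x.1 then exec C (x.1, x.2 + e.ops + 1) else exec D (x.1, x.2 + e.ops + 1)
  | .loop i C, x => iter (fun y => exec C (y.1, y.2 + 1)) (x.1 i).length (x.1, x.2 + 1)

/-- A language of bit strings as a language of real strings. -/
def emb (A : Set (List Bool)) : Set (List ℝ) := {w | ∃ z ∈ A, w = z.map bit}

/-- Acceptance: the top of stack `0` is `1`. -/
def Acc (x : St × ℕ) : Prop := (x.1 0).headD 0 = 1

open Classical in
/-- Probability of acceptance against the prover `P`, where `h` is the list of the messages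
already sent to the prover, the newest first; queries are answered by the oracle `A`. -/
noncomputable def pr (A : Set (List Bool)) (P : List ℝ → ℝ) : List ℝ → G (St × ℕ) → ℝ
  | _, .ret x => if Acc x then 1 else 0
  | h, .flip k => (pr A P h (k false) + pr A P h (k true)) / 2
  | h, .ask w k => pr A P (w :: h) (k (P (w :: h)))
  | h, .qry w k => pr A P h (k (decide (w ∈ emb A)))

/-- All outcomes of a tree satisfy `Q`, whatever the coins, the prover and the oracle say. -/
def G.all {α : Type} (Q : α → Prop) : G α → Prop
  | .ret a => Q a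
  | .flip k => ∀ b, (k b).all Q
  | .ask _ k => ∀ y, (k y).all Q
  | .qry _ k => ∀ b, (k b).all Q

/-- The run of `C` on input `x`: `x` on stack `0`, all other stacks empty. -/
noncomputable def run (C : Cmd) (x : List ℝ) : G (St × ℕ) :=
  exec C (Function.update (fun _ => []) 0 x, 0)

/-- Polynomial time. -/
def PolyTime (C : Cmd) : Prop :=
  ∃ p : Polynomial ℕ, ∀ x : List ℝ, (run C x).all fun y => y.2 ≤ p.eval x.length

/-- Real interactive proofs. -/
def InIP (L : Set (List ℝ)) : Prop :=
  ∃ C : Cmd, PolyTime C ∧ ∀ x : List ℝ, x ≠ [] →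
    (x ∈ L → ∃ P, pr ∅ P [] (run C x) = 1) ∧ (x ∉ L → ∀ P, pr ∅ P [] (run C x) ≤ 1 / 4)

/-- Programs without coins, and without prover if `a` is false. -/
def Cmd.ok (a : Bool) : Cmd → Prop
  | .flip _ => False
  | .ask _ _ => a = true
  | .seq C D => C.ok a ∧ D.ok a
  | .ite _ C D => C.ok a ∧ D.ok a
  | .loop _ C => C.ok a
  | _ => True

/-- Languages decided without coins in polynomial time with the Boolean oracle `A`:
`NP` relative to `A` over the reals for `a = true`, `P` relative to `A` for `a = false`. -/
def InC (a : Bool) (A : Set (List Bool)) (L : Set (List ℝ)) : Prop :=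
  ∃ C : Cmd, C.ok a ∧ PolyTime C ∧ ∀ x : List ℝ, x ≠ [] →
    (x ∈ L ↔ ∃ P, pr A P [] (run C x) = 1)

end Pool.Agent.IPR
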