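import Pool.Agent.IPR.Lev

set_option linter.unusedSimpArgs false

namespace Pool.Agent.IPR

open scoped ENNReal

open Classical in
/-- Greedy subtraction. -/
noncomputable def rem (v : ℝ) (P : List ℝ) : ℝ := P.foldl (fun v p => if p ≤ v then v - p else v) v

open Classical in
theorem rem_cons (v p : ℝ) (P : List ℝ) :
    rem v (p :: P) = rem (if p ≤ v then v - p else v) P := rfl

theorem rem_int : ∀ (P : List ℝ) (v : ℝ), AllInt P → rem v P = 0 → ∃ k : ℤ, (k : ℝ) = v := by
  intro P
  induction P with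
  | nil => intro v _ h; exact ⟨0, by simpa [rem] using h.symm⟩
  | cons p P ih =>
    intro v hP h
    rw [allInt_cons] at hP
    rw [rem_cons] at h
    obtain ⟨k, hk⟩ := ih _ hP.2 h
    obtain ⟨l, hl⟩ := hP.1
    split_ifs at hk
    · exact ⟨k + l, by push_cast; linarith⟩
    · exact ⟨k, hk⟩

theorem pw_int : ∀ k : ℕ, AllInt (pw k) := by
  intro k
  induction k with
  | zero => exact allInt_nil
  | succ k ih => exact allInt_cons.2 ⟨⟨2 ^ k, by simp⟩, ih⟩

theorem rem_pw : ∀ (k : ℕ) (v : ℕ), v < 2 ^ k → rem v (pw k) = 0 := by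
  intro k
  induction k with
  | zero => intro v hv; simp only [pow_zero, Nat.lt_one_iff] at hv; subst hv; simp [rem, pw]
  | succ k ih =>
    intro v hv
    rw [pw, rem_cons]
    by_cases h : 2 ^ k ≤ v
    · rw [if_pos (by exact_mod_cast h)]
      have := ih (v - 2 ^ k) (by rw [pow_succ] at hv; omega)
      rw [Nat.cast_sub h] at this
      push_cast at this
      exact this
    · rw [if_neg (by exact_mod_cast h)]
      exact ih v (by omega)

theorem exec_subloop (F U L J V B R : List ℝ) (s : St) : ∀ (P T : List ℝ) (v : ℝ) (t : ℕ),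
    ∃ t' ≤ t + 7 * P.length,
      iter (fun y => exec SUB1 (y.1, y.2 + 1)) P.length
        (mk F U T L J (v :: V) [] P B [] R [] s, t)
      = .ret (mk F U (P.reverse ++ T) L J (rem v P :: V) [] [] B [] R [] s, t') := by
  classical
  intro P
  induction P with
  | nil => intro T v t; exact ⟨t, by simp, by simp [iter, rem]⟩
  | cons p P ih =>
    intro T v t
    simp only [List.length_cons, iter]
    have h1 : ∃ t1 ≤ t + 7, exec SUB1 (mk F U T L J (v :: V) [] (p :: P) B [] R [] s, t + 1)
        = .ret (mk F U (p :: T) L J ((if p ≤ v then v - p else v) :: V) [] P B [] R [] s, t1)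
        := by
      by_cases h : p ≤ v
      · have h' : 0 ≤ v - p := by linarith
        simp only [SUB1, exec, G.bind, Ex.val, Ex.ops, mk_5, mk_7, mk_2, upd_5, upd_7, upd_2,
          List.headD_cons, List.tail_cons, h', if_true, h]
        exact ⟨_, by omega, rfl⟩
      · have h' : ¬ 0 ≤ v - p := by
          intro h5; exact h (by linarith)
        simp only [SUB1, exec, G.bind, Ex.val, Ex.ops, mk_5, mk_7, mk_2, upd_5, upd_7, upd_2,
          List.headD_cons, List.tail_cons, h', if_false, h]
        exact ⟨_, by omega, rfl⟩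
    obtain ⟨t1, ht1, e1⟩ := h1
    rw [e1]
    simp only [G.bind]
    obtain ⟨t2, ht2, e2⟩ := ih (p :: T) (if p ≤ v then v - p else v) t1
    refine ⟨t2, by omega, ?_⟩
    rw [e2, rem_cons]
    simp

open Classical in
theorem exec_fin1 (f v : ℝ) (U L J V P B R : List ℝ) (s : St) (t : ℕ) :
    ∃ t' ≤ t + 10 * P.length + 9,
      exec FIN1 (mk [f] U [] L J (v :: V) [] P B [] R [] s, t)
      = .ret (mk [if rem v P = 0 then f else 0] U [] L J V [] P B [] R [] s, t') := by
  obtain ⟨t1, ht1, e1⟩ := exec_subloop [f] U L J V B R s P [] v (t + 1)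
  have e2 := exec_move 2 7 (by omega)
    (mk [f] U (P.reverse ++ []) L J (rem v P :: V) [] [] B [] R [] s) t1
  simp only [mk_2, mk_7, upd_2, upd_7, List.append_nil, List.reverse_reverse,
    List.length_reverse] at e2
  simp only [FIN1, exec, mk_7] at e1 ⊢
  rw [e1]
  simp only [exec, List.append_nil] at e2 ⊢
  simp only [G.bind]
  rw [e2]
  by_cases h0 : rem v P = 0
  · simp only [G.bind, Ex.val, Ex.ops, mk_0, mk_5, upd_0, upd_5, List.headD_cons, List.tail_cons,
      h0, le_refl, if_true, sub_self, zero_sub, neg_zero]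
    exact ⟨_, by omega, rfl⟩
  · by_cases h1 : 0 ≤ rem v P
    · have h2 : ¬ (0 : ℝ) ≤ 0 - rem v P := by
        intro h; exact h0 (by linarith)
      simp only [G.bind, Ex.val, Ex.ops, mk_0, mk_5, upd_0, upd_5, List.headD_cons,
        List.tail_cons, h0, h1, h2, if_true, if_false]
      exact ⟨_, by omega, rfl⟩
    · have h2 : (0 : ℝ) ≤ 0 - rem v P := by
        push Not at h1; linarith
      simp only [G.bind, Ex.val, Ex.ops, mk_0, mk_5, upd_0, upd_5, List.headD_cons,
        List.tail_cons, h0, h1, h2, if_true, if_false]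
      exact ⟨_, by omega, rfl⟩

open Classical in
theorem exec_finloop (U L J P B R : List ℝ) (s : St) : ∀ (V : List ℝ) (f : ℝ) (t : ℕ),
    ∃ t' ≤ t + V.length * (10 * P.length + 10),
      iter (fun y => exec FIN1 (y.1, y.2 + 1)) V.length
        (mk [f] U [] L J V [] P B [] R [] s, t)
      = .ret (mk [if ∀ v ∈ V, rem v P = 0 then f else 0] U [] L J [] [] P B [] R [] s, t') := by
  intro V
  induction V with
  | nil => intro f t; exact ⟨t, by simp, by simp [iter]⟩
  | cons v V ih =>
    intro f t
    simp only [List.length_cons, iter]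
    obtain ⟨t1, ht1, e1⟩ := exec_fin1 f v U L J V P B R s (t + 1)
    rw [e1]
    simp only [G.bind]
    obtain ⟨t2, ht2, e2⟩ := ih (if rem v P = 0 then f else 0) t1
    refine ⟨t2, by rw [Nat.succ_mul]; omega, ?_⟩
    rw [e2]
    congr 4
    by_cases h1 : rem v P = 0
    · simp [h1]
    · simp [h1]

/-- The state before and after the protocol. -/
def enc (f : ℝ) (U : List ℝ) (s : St) : St := mk [f] U [] [] [] [] [] [] [] [] [] [] s

open Classical in
theorem exec_ans (f J B ρ : ℝ) (U P : List ℝ) (j : ℕ) (s : St) (t : ℕ) :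
    ∃ t' ≤ t + 2 * P.length + 7,
      exec (ANS j) (mk [f] U [] [] [J] [] [] P [B] [] [ρ] [] s, t)
      = .ret (enc f U (Function.update s j ((if 1 ≤ ρ then B else 0) :: s j)), t') := by
  have e2 := exec_clr 7 (mk [f] U [] [] [J] [] [] P [B] [] [ρ] [] s) t
  simp only [mk_7, upd_7] at e2
  simp only [ANS, exec] at e2 ⊢
  rw [e2]
  by_cases h : 1 ≤ ρ
  · have h' : 0 ≤ ρ - 1 := by linarith
    simp only [G.bind, Ex.val, Ex.ops, mk_10, mk_8, mk_4, mk_add, upd_10, upd_8, upd_4, upd_add,
      List.headD_cons, List.tail_cons, h', h, if_true]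
    exact ⟨_, by omega, rfl⟩
  · have h' : ¬ 0 ≤ ρ - 1 := by
      intro h5; exact h (by linarith)
    simp only [G.bind, Ex.val, Ex.ops, mk_10, mk_8, mk_4, mk_add, upd_10, upd_8, upd_4, upd_add,
      List.headD_cons, List.tail_cons, h', h, if_false]
    exact ⟨_, by omega, rfl⟩

end Pool.Agent.IPR
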