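import Pool.Agent.IPR.Sim3

set_option linter.unusedSimpArgs false

namespace Pool.Agent.IPR

open scoped ENNReal

/-- Copy the input loop body. -/
noncomputable def IN1 : Cmd := .seq (.push 2 (.t 0)) (.seq (.pop 0) (.push 1 (.c 0)))

/-- Push `d` zeros on stack `1`. -/
noncomputable def PAD : ℕ → Cmd
  | 0 => .skip
  | d + 1 => .seq (.push 1 (.c 0)) (PAD d)

noncomputable def PRE (d : ℕ) : Cmd :=
  .seq (.loop 0 IN1) <| .seq (MOVE 2 12) <| .seq (PAD d) <| .push 0 (.c 1)

noncomputable def POST : Cmd :=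
  .seq (.ite (.sub (.t 12) (.c 1)) .skip (.set 0 (.c 0)))
    (.ite (.sub (.c 1) (.t 12)) .skip (.set 0 (.c 0)))

/-- The initial state. -/
def ini (x : List ℝ) : St := Function.update (fun _ => []) 0 x

theorem ini_eq (x : List ℝ) : ini x = mk x [] [] [] [] [] [] [] [] [] [] [] (fun _ => []) := by
  funext i; match i with
  | 0 | 1 | 2 | 3 | 4 | 5 | 6 | 7 | 8 | 9 | 10 | 11 | n + 12 =>
    simp [ini, mk, Function.update]

theorem exec_in (s : St) : ∀ (x T : List ℝ) (n t : ℕ),
    ∃ t' ≤ t + 4 * x.length, iter (fun y => exec IN1 (y.1, y.2 + 1)) x.length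
      (mk x (List.replicate n 0) T [] [] [] [] [] [] [] [] [] s, t)
      = .ret (mk [] (List.replicate (n + x.length) 0) (x.reverse ++ T) [] [] [] [] [] [] [] [] []
        s, t') := by
  intro x
  induction x with
  | nil => intro T n t; exact ⟨t, by simp, by simp [iter]⟩
  | cons a x ih =>
    intro T n t
    simp only [List.length_cons, iter]
    have h1 : exec IN1 (mk (a :: x) (List.replicate n 0) T [] [] [] [] [] [] [] [] [] s, t + 1)
        = .ret (mk x (List.replicate (n + 1) 0) (a :: T) [] [] [] [] [] [] [] [] [] s, t + 4)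
        := by
      simp only [IN1, exec, G.bind, Ex.val, Ex.ops, mk_0, mk_1, mk_2, upd_0, upd_1, upd_2,
        List.headD_cons, List.tail_cons, List.replicate_succ]
    rw [h1]
    simp only [G.bind]
    obtain ⟨t', ht', h2⟩ := ih (a :: T) (n + 1) (t + 4)
    refine ⟨t', by omega, ?_⟩
    rw [h2]
    have e1 : n + 1 + x.length = n + (x.length + 1) := by ring
    rw [e1]
    simp

theorem exec_pad (s : St) (x T : List ℝ) : ∀ (d n t : ℕ), ∃ t' ≤ t + d, exec (PAD d)
      (mk x (List.replicate n 0) T [] [] [] [] [] [] [] [] [] s, t)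
      = .ret (mk x (List.replicate (n + d) 0) T [] [] [] [] [] [] [] [] [] s, t') := by
  intro d
  induction d with
  | zero => intro n t; exact ⟨t, by simp, by simp [PAD, exec]⟩
  | succ d ih =>
    intro n t
    obtain ⟨t', ht', h2⟩ := ih (n + 1) (t + 1)
    refine ⟨t', by omega, ?_⟩
    have e1 : n + (d + 1) = n + 1 + d := by ring
    rw [PAD, exec.eq_8, exec.eq_2, e1]
    simp only [G.bind, Ex.val, Ex.ops, mk_1, upd_1, add_zero]
    rw [← List.replicate_succ]
    exact h2

theorem exec_pre (d : ℕ) (x : List ℝ) :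
    ∃ t' ≤ 7 * x.length + d + 3, exec (PRE d) (ini x, 0)
      = .ret (enc 1 (List.replicate (x.length + d) 0) (ini x), t') := by
  obtain ⟨t1, ht1, h1⟩ := exec_in (fun _ => []) x [] 0 1
  have h2 := exec_move 2 12 (by omega)
    (mk [] (List.replicate (0 + x.length) 0) (x.reverse ++ []) [] [] [] [] [] [] [] [] []
      (fun _ => [])) t1
  obtain ⟨t3, ht3, h3⟩ := exec_pad (ini x) [] [] d x.length (t1 + 1 + 3 * x.length)
  have e12 : ∀ (F U T L J V W P B S R A : List ℝ) (s : St),
      mk F U T L J V W P B S R A s 12 = s 0 := fun _ _ _ _ _ _ _ _ _ _ _ _ _ => rfl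
  have u12 : ∀ (F U T L J V W P B S R A : List ℝ) (s : St) (l : List ℝ),
      Function.update (mk F U T L J V W P B S R A s) 12 l
        = mk F U T L J V W P B S R A (Function.update s 0 l) :=
    fun F U T L J V W P B S R A s l => upd_add F U T L J V W P B S R A l s 0
  simp only [mk_2, e12, u12, upd_2, List.append_nil, List.reverse_reverse, List.length_reverse,
    Nat.zero_add] at h2
  refine ⟨t3 + 1, by omega, ?_⟩
  rw [PRE, exec.eq_8, exec.eq_10, ini_eq x]
  rw [List.replicate_zero] at h1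
  simp only [mk_0, Nat.zero_add]
  rw [h1]
  simp only [G.bind, List.append_nil, Nat.zero_add]
  rw [exec.eq_8, h2]
  simp only [G.bind]
  rw [exec.eq_8]
  have e5 : (Function.update (fun _ => []) 0 x : St) = ini x := rfl
  rw [e5, h3]
  simp only [G.bind, exec, Ex.val, Ex.ops, mk_0, upd_0, add_zero, enc]
  rw [← ini_eq x]

open Classical in
theorem exec_post (f : ℝ) (U : List ℝ) (s : St) (t : ℕ) :
    ∃ t' ≤ t + 6, exec POST (enc f U s, t)
      = .ret (enc (if (s 0).headD 0 = 1 then f else 0) U s, t') := by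
  have e12 : ∀ (F U T L J V W P B S R A : List ℝ) (s : St),
      mk F U T L J V W P B S R A s 12 = s 0 := fun _ _ _ _ _ _ _ _ _ _ _ _ _ => rfl
  set v := (s 0).headD 0 with hv
  by_cases h : v = 1
  · simp only [POST, exec, G.bind, Ex.val, Ex.ops, enc, mk_0, upd_0, e12, ← hv, h, sub_self,
      le_refl, if_true]
    exact ⟨_, by omega, rfl⟩
  · by_cases h1 : 0 ≤ v - 1
    · have h2 : ¬ 0 ≤ 1 - v := by
        intro h5; exact h (by linarith)
      simp only [POST, exec, G.bind, Ex.val, Ex.ops, enc, mk_0, upd_0, e12, ← hv, h, h1, h2,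
        if_true, if_false, List.tail_cons]
      exact ⟨_, by omega, rfl⟩
    · have h2 : 0 ≤ 1 - v := by
        push Not at h1; linarith
      simp only [POST, exec, G.bind, Ex.val, Ex.ops, enc, mk_0, upd_0, e12, ← hv, h, h1, h2,
        if_true, if_false, List.tail_cons]
      exact ⟨_, by omega, rfl⟩

theorem pow_bound (k : ℕ) : ∃ D : ℕ, ∀ n : ℕ, n ^ k ≤ D * 2 ^ n := by
  have h := tendsto_pow_const_div_const_pow_of_one_lt k (r := (2 : ℝ)) (by norm_num)
  obtain ⟨B, hB⟩ := h.bddAbove_range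
  refine ⟨⌈B⌉₊, fun n => ?_⟩
  have h1 : (n : ℝ) ^ k / 2 ^ n ≤ B := hB ⟨n, rfl⟩
  rw [div_le_iff₀ (by positivity)] at h1
  have h2 : (n : ℝ) ^ k ≤ (⌈B⌉₊ : ℝ) * 2 ^ n :=
    h1.trans (mul_le_mul_of_nonneg_right (Nat.le_ceil B) (by positivity))
  exact_mod_cast h2

theorem poly_bound (p : Polynomial ℕ) : ∃ D : ℕ, ∀ n : ℕ, p.eval n ≤ D * 2 ^ n := by
  induction p using Polynomial.induction_on' with
  | add p q hp hq =>
    obtain ⟨D1, h1⟩ := hp
    obtain ⟨D2, h2⟩ := hq
    refine ⟨D1 + D2, fun n => ?_⟩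
    rw [Polynomial.eval_add, add_mul]
    exact add_le_add (h1 n) (h2 n)
  | monomial k a =>
    obtain ⟨D, h⟩ := pow_bound k
    refine ⟨a * D, fun n => ?_⟩
    rw [Polynomial.eval_monomial, mul_assoc]
    exact Nat.mul_le_mul_left a (h n)

theorem poly_bound' (p : Polynomial ℕ) : ∃ d : ℕ, 3 ≤ d ∧ ∀ n : ℕ, 8 * p.eval n ≤ 2 ^ (n + d) := by
  obtain ⟨D, hD⟩ := poly_bound p
  refine ⟨8 * D + 3, by omega, fun n => ?_⟩
  have h1 : 8 * D ≤ 2 ^ (8 * D + 3) := (Nat.lt_two_pow_self).le.trans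
    (Nat.pow_le_pow_right (by norm_num) (by omega))
  calc 8 * p.eval n ≤ 8 * (D * 2 ^ n) := Nat.mul_le_mul_left 8 (hD n)
    _ = 8 * D * 2 ^ n := by ring
    _ ≤ 2 ^ (8 * D + 3) * 2 ^ n := Nat.mul_le_mul_right _ h1
    _ = 2 ^ (n + (8 * D + 3)) := by rw [← pow_add]; congr 1; ring

/-- The time polynomial. -/
noncomputable def levP (m : Polynomial ℕ) : Polynomial ℕ :=
  10 * (m + 1) + 1 + (m * (11 * (2 * (m + 1)) + 9) + 2) + (1 + 2 * (2 * (m + 1))) + 1

noncomputable def verP (m k : Polynomial ℕ) : Polynomial ℕ :=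
  (16 * k + 20) + 16 + (1 + (k + 2) * (levP m + 1)) +
  (1 + (m + 1) * (10 * (1 + (k + 2) * m) + 10)) + (2 * (1 + (k + 2) * m) + 7)

theorem levP_eval (m : Polynomial ℕ) (n : ℕ) : (levP m).eval n = levT (m.eval n) := by
  simp only [levP, levT, Polynomial.eval_add, Polynomial.eval_mul, Polynomial.eval_one,
    Polynomial.eval_ofNat]

theorem verP_eval (m k : Polynomial ℕ) (n : ℕ) :
    (verP m k).eval n = verT (m.eval n) (k.eval n) := by
  simp only [verP, verT, levP_eval, Polynomial.eval_add, Polynomial.eval_mul,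
    Polynomial.eval_one, Polynomial.eval_ofNat]

theorem run_eq (C : Cmd) (x : List ℝ) : run C x = exec C (ini x, 0) := rfl

theorem ini_sz (x : List ℝ) : Sz x.length (ini x) 0 := by
  intro i
  unfold ini
  by_cases hi : i = 0
  · subst hi; simp
  · rw [Function.update_of_ne hi]; simp

/-- The translated verifier. -/
noncomputable def VV (c : ℝ) (d : ℕ) (C : Cmd) : Cmd :=
  .seq (PRE d) (.seq (tr c C) POST)

theorem own_nil : own [] = [] := by simp [own]

theorem compl_VV (A : Set (List Bool)) (C : Cmd) (hC : C.ok true) (d : ℕ) (hd : 3 ≤ d)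
    (x : List ℝ) (PA : List ℝ → ℝ) (h : pr A PA [] (run C x) = 1) :
    pr ∅ (hon PA) [] (run (VV (cst A) d C) x) = 1 := by
  rw [pr_eq_one_iff] at h ⊢
  obtain ⟨t', -, h1⟩ := exec_pre d x
  rw [run_eq, VV, exec.eq_8, h1]
  simp only [G.bind]
  rw [exec.eq_8, hp_bind]
  refine sim_compl A PA (List.replicate (x.length + d) 0) (by simp; omega) 1 C hC (ini x) 0 t' []
    (fun a _ => Acc a) _ ?_ ?_
  · intro s1 t1 t'' h' hacc
    obtain ⟨t3, -, h3⟩ := exec_post 1 (List.replicate (x.length + d) 0) s1 t''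
    rw [h3]
    have : (s1 0).headD 0 = 1 := hacc
    rw [if_pos this]
    simp [hp, Acc, enc]
  · rw [own_nil]
    exact h

theorem sound_VV (A : Set (List Bool)) (C : Cmd) (hC : C.ok true) (d T : ℕ)
    (x : List ℝ) (hT : 8 * T ≤ 2 ^ (x.length + d))
    (h : allA A (fun y => y.2 ≤ T ∧ ¬ Acc y) (run C x)) (P : List ℝ → ℝ) :
    pr ∅ P [] (run (VV (cst A) d C) x) ≤ 1 / 4 := by
  classical
  have h0 := pr_le_wp ∅ P [] (run (VV (cst A) d C) x)
  set U : List ℝ := List.replicate (x.length + d) 0 with hU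
  have hUl : U.length = x.length + d := by simp [hU]
  have h2 : wp (fun a => if Acc a then (1 : ℝ≥0∞) else 0) (run (VV (cst A) d C) x)
      ≤ (2 / 2 ^ U.length) * (T : ℕ) := by
    obtain ⟨t', -, h1⟩ := exec_pre d x
    rw [run_eq, VV, exec.eq_8, h1]
    simp only [G.bind]
    rw [exec.eq_8, wp_bind]
    have := (sim_sound A U T (2 / 2 ^ U.length) le_rfl C hC (ini x) 1 0 t'
      (fun y => wp (fun a => if Acc a then (1 : ℝ≥0∞) else 0) (exec POST y)) ?_ ?_ ?_).2
    · simpa using this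
    · intro y
      exact wp_le_one _ (fun z => by split_ifs <;> simp) _
    · intro s1 t1
      obtain ⟨t3, -, h3⟩ := exec_post 0 U s1 t1
      rw [h3]
      simp [wp, Acc, enc]
    · refine allA_mono ?_ h
      rintro ⟨s1, t1⟩ ⟨g1, g2⟩
      refine ⟨g1, fun t'' => ?_⟩
      obtain ⟨t3, -, h3⟩ := exec_post 1 U s1 t''
      simp only
      rw [h3]
      have : ¬ (s1 0).headD 0 = 1 := g2
      rw [if_neg this]
      simp [wp, Acc, enc]
  have h3 : ENNReal.ofReal (pr ∅ P [] (run (VV (cst A) d C) x)) ≤ ENNReal.ofReal (1 / 4) := by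
    refine (h0.trans h2).trans ?_
    rw [hUl]
    have h4 : (2 / 2 ^ (x.length + d) : ℝ≥0∞) * (T : ℕ)
        = ENNReal.ofReal (2 / 2 ^ (x.length + d) * T) := by
      rw [ENNReal.ofReal_mul (by positivity), ENNReal.ofReal_div_of_pos (by positivity),
        ENNReal.ofReal_pow (by norm_num)]
      simp
    rw [h4]
    apply ENNReal.ofReal_le_ofReal
    rw [div_mul_eq_mul_div, div_le_div_iff₀ (by positivity) (by norm_num)]
    have : (8 : ℝ) * T ≤ 2 ^ (x.length + d) := by exact_mod_cast hT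
    linarith
  exact (ENNReal.ofReal_le_ofReal_iff (by norm_num)).1 h3

theorem time_VV (A : Set (List Bool)) (C : Cmd) (d : ℕ) (hC : PolyTime C) :
    PolyTime (VV (cst A) d C) := by
  obtain ⟨p, hp⟩ := hC
  set q : Polynomial ℕ := verP ((Polynomial.X + Polynomial.C d) + (Polynomial.X + p))
    (Polynomial.X + p) + 3 with hq
  refine ⟨7 * Polynomial.X + Polynomial.C d + 3 + q * p + 6, fun x => ?_⟩
  set T := p.eval x.length with hT
  set U : List ℝ := List.replicate (x.length + d) 0 with hU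
  have hUl : U.length = x.length + d := by simp [hU]
  set τ := verT (U.length + (x.length + T)) (x.length + T) + 3 with hτ
  have hqe : q.eval x.length = τ := by
    rw [hq, Polynomial.eval_add, verP_eval]
    simp only [Polynomial.eval_add, Polynomial.eval_X, Polynomial.eval_C,
      Polynomial.eval_ofNat]
    rw [hτ, hUl, ← hT]
  obtain ⟨t', ht', h1⟩ := exec_pre d x
  rw [run_eq, VV, exec.eq_8, h1]
  simp only [G.bind]
  rw [exec.eq_8, all_bind]
  have hs := sim_time A U x.length T τ (by omega) (by omega) C (ini x) 1 0 t' (fun _ => True)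
    (ini_sz x) (all_mono (fun a ha => ⟨ha, trivial⟩) (hp x))
  refine all_mono ?_ hs
  rintro ⟨y1, y2⟩ ⟨f', s1, t1, e1, e2, e3, -, -⟩
  simp only at e1 e2
  subst e1
  obtain ⟨t3, ht3, h3⟩ := exec_post f' U s1 y2
  rw [h3]
  simp only [G.all]
  rw [Polynomial.eval_add, Polynomial.eval_add, Polynomial.eval_mul, hqe, ← hT]
  simp only [Polynomial.eval_add, Polynomial.eval_mul, Polynomial.eval_X, Polynomial.eval_C,
    Polynomial.eval_ofNat]
  have : τ * t1 ≤ τ * T := Nat.mul_le_mul_left _ e3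
  omega

end Pool.Agent.IPR
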