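import Pool.Agent.IPR.Rand

set_option linter.unusedSimpArgs false

namespace Pool.Agent.IPR

open scoped ENNReal

/-- Time of one level when stack `5` has at most `m + 1` entries. -/
def levT (m : ℕ) : ℕ := 10 * (m + 1) + 1 + (m * (11 * (2 * (m + 1)) + 9) + 2) +
  (1 + 2 * (2 * (m + 1))) + 1

open Classical in
theorem wp_lev1 {β e : ℝ≥0∞} (q : ℕ) (F U L J V B R : List ℝ) (l : ℤ) (k : ℕ) (s : St) (t : ℕ)
    (Φ : St × ℕ → ℝ≥0∞) (hVl : V.length ≤ U.length + (s q).length + 1)
    (h : ∀ V' t', V'.length = U.length + (s q).length →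
      t' ≤ t + levT (U.length + (s q).length) →
      Φ (mk F U [] L J V' [] (pw (k + 1 + (U.length + (s q).length))) B [] R [] s, t')
        ≤ if AllInt V' then β + e else β) :
    wp Φ (exec (LEV1 q) (mk F U [] ((l : ℝ) :: L) J V [] (pw (k + 1)) B [] R [] s, t))
      ≤ if AllInt V then β + e else β + e / 2 ^ (U.length + (s q).length) := by
  set n1 := U.length with hn1
  set n2 := (s q).length with hn2
  simp only [LEV1, exec, wp_bind, mk_5]
  have hd := wp_dec (β := β + e / 2 ^ (n1 + n2)) (e := e - e / 2 ^ (n1 + n2)) F U L J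
    (pw (k + 1)) B R l s
    (fun x => wp Φ (exec (.seq (.loop 1 ROW) (.seq (.loop (q + 12) ROW) (.seq (CLR 6) (.pop 3))))
      x)) V [] (t + 1) ?_
  · simp only [exec, wp_bind] at hd
    refine hd.trans ?_
    have he : e / 2 ^ (n1 + n2) ≤ e := by
      refine ENNReal.div_le_of_le_mul ?_
      have : (1 : ℝ≥0∞) ≤ 2 ^ (n1 + n2) := one_le_pow₀ (by norm_num)
      calc e = e * 1 := (mul_one e).symm
        _ ≤ e * 2 ^ (n1 + n2) := mul_le_mul_right this e
    by_cases hV : AllInt V
    · rw [if_pos ⟨hV, allInt_nil⟩, if_pos hV, add_assoc, add_tsub_cancel_of_le he]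
    · rw [if_neg fun h5 => hV h5.1, if_neg hV]
  · intro W t' hW ht'
    simp only [List.length_nil, add_zero] at hW
    have hr2 : ∀ V' t'', V'.length = n1 → t'' ≤ t' + 1 + n1 * (11 * W.length + 9) →
        wp Φ (exec (.seq (.loop (q + 12) ROW) (.seq (CLR 6) (.pop 3)))
          (mk F U [] ((l : ℝ) :: L) J V' W (pw (k + 1 + n1)) B [] R [] s, t''))
          ≤ if AllInt V' then (if AllInt W then β + e else β + e / 2 ^ n2) else β := by
      intro V' t'' hV' ht''
      simp only [exec, wp_bind, mk_add]
      rw [show k + 1 + n1 = (k + n1) + 1 by ring, ← hn2]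
      refine wp_rows F U ((l : ℝ) :: L) J W B R s _ n2 V' (k + n1) (t'' + 1) e ?_
      intro V2 t2 hV2 ht2
      have hc := exec_clr 6
        (mk F U [] ((l : ℝ) :: L) J V2 W (pw (k + n1 + 1 + n2)) B [] R [] s) t2
      rw [hc]
      simp only [wp, mk_6, upd_6, mk_3, upd_3, List.tail_cons]
      have := h V2 (t2 + 1 + 2 * W.length + 1) (by omega) ?_
      · rw [show k + n1 + 1 + n2 = k + 1 + (n1 + n2) by ring]
        exact this
      · have e1 : W.length ≤ 2 * (n1 + n2 + 1) := by omega
        have e2 : n1 * (11 * W.length + 9) + n2 * (11 * W.length + 9)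
            ≤ (n1 + n2) * (11 * (2 * (n1 + n2 + 1)) + 9) := by
          rw [← add_mul]
          exact Nat.mul_le_mul_left _ (by omega)
        unfold levT
        omega
    simp only [exec, wp_bind, mk_1] at hr2 ⊢
    have hr1 := wp_rows (β := β) F U ((l : ℝ) :: L) J W B R s
      (fun x => wp Φ (exec (.seq (.loop (q + 12) ROW) (.seq (CLR 6) (.pop 3))) x))
      n1 [] k (t' + 1) (if AllInt W then e else e / 2 ^ n2) ?_
    · simp only [exec, wp_bind] at hr1
      refine hr1.trans ?_
      rw [if_pos allInt_nil]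
      by_cases hW5 : AllInt W
      · simp only [if_pos hW5]
        rw [add_assoc]
        refine add_le_add_right ?_ β
        have he : e / 2 ^ (n1 + n2) ≤ e := by
          refine ENNReal.div_le_of_le_mul ?_
          have : (1 : ℝ≥0∞) ≤ 2 ^ (n1 + n2) := one_le_pow₀ (by norm_num)
          calc e = e * 1 := (mul_one e).symm
            _ ≤ e * 2 ^ (n1 + n2) := mul_le_mul_right this e
        rw [add_tsub_cancel_of_le he]
      · simp only [if_neg hW5]
        refine add_le_add_right (le_of_eq ?_) β
        rw [pow_add, ENNReal.div_eq_inv_mul, ENNReal.div_eq_inv_mul, ENNReal.div_eq_inv_mul,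
          ← mul_assoc, ENNReal.mul_inv (by simp) (by simp)]
    · intro V' t'' hV' ht''
      simp only [List.length_nil, zero_add] at hV'
      have := hr2 V' t'' hV' (by omega)
      simp only [exec, wp_bind]
      refine this.trans ?_
      by_cases hV5 : AllInt V'
      · rw [if_pos hV5, if_pos hV5]
        by_cases hW5 : AllInt W
        · rw [if_pos hW5, if_pos hW5]
        · rw [if_neg hW5, if_neg hW5]
      · rw [if_neg hV5, if_neg hV5]

theorem lad_int : ∀ k : ℕ, ∃ l : ℤ, lad (k + 1) = (l : ℝ) :: lad k :=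
  fun k => ⟨2 ^ 2 ^ k, by simp [lad]⟩

open Classical in
theorem wp_levels (q : ℕ) (F U J B R : List ℝ) (s : St)
    (Φ : St × ℕ → ℝ≥0∞) : ∀ (n k t : ℕ) (V : List ℝ) (β e : ℝ≥0∞),
    V.length ≤ U.length + (s q).length + 1 →
    (∀ V' t', V'.length ≤ U.length + (s q).length + 1 →
      t' ≤ t + n * (levT (U.length + (s q).length) + 1) →
      Φ (mk F U [] [] J V' [] (pw (k + 1 + n * (U.length + (s q).length))) B [] R [] s, t')
        ≤ if AllInt V' then β + e else β) →
    wp Φ (iter (fun y => exec (LEV1 q) (y.1, y.2 + 1)) n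
      (mk F U [] (lad n) J V [] (pw (k + 1)) B [] R [] s, t))
      ≤ if AllInt V then β + e else β + n * (e / 2 ^ (U.length + (s q).length)) := by
  intro n
  induction n with
  | zero =>
    intro k t V β e hVl h
    simp only [iter, wp, lad]
    have := h V t hVl (by simp)
    simpa using this
  | succ n ih =>
    intro k t V β e hVl h
    set m := U.length + (s q).length with hm
    simp only [iter, wp_bind]
    obtain ⟨l, hl⟩ := lad_int n
    rw [hl]
    have step : ∀ (β e : ℝ≥0∞),
        (∀ V' t', V'.length ≤ m + 1 → t' ≤ t + (n + 1) * (levT m + 1) →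
          Φ (mk F U [] [] J V' [] (pw (k + 1 + (n + 1) * m)) B [] R [] s, t')
            ≤ if AllInt V' then β + e else β) →
        wp (fun x => wp Φ (iter (fun y => exec (LEV1 q) (y.1, y.2 + 1)) n x))
          (exec (LEV1 q) (mk F U [] ((l : ℝ) :: lad n) J V [] (pw (k + 1)) B [] R [] s, t + 1))
        ≤ if AllInt V then β + n * (e / 2 ^ m) + e else β + n * (e / 2 ^ m) + e / 2 ^ m := by
      intro β e h
      refine wp_lev1 (β := β + n * (e / 2 ^ m)) (e := e) q F U (lad n) J V B R l k s (t + 1)
        (fun x => wp Φ (iter (fun y => exec (LEV1 q) (y.1, y.2 + 1)) n x)) hVl ?_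
      intro V' t' hV' ht'
      rw [← hm] at hV' ht'
      have h2 := ih (k + m) t' V' β e (by omega) (fun V2 t2 hV2 ht2 => by
        have := h V2 t2 hV2 (by rw [Nat.succ_mul]; omega)
        rw [show k + 1 + (n + 1) * m = k + m + 1 + n * m by ring] at this
        exact this)
      rw [show k + 1 + m = k + m + 1 by ring]
      refine h2.trans ?_
      by_cases hV5 : AllInt V'
      · rw [if_pos hV5, if_pos hV5]
        rw [add_right_comm]
        exact le_self_add
      · rw [if_neg hV5, if_neg hV5]
    by_cases hV : AllInt V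
    · rw [if_pos hV]
      have := step (β + e) 0 (fun V' t' hV' ht' => by
        refine (h V' t' hV' ht').trans ?_
        split_ifs
        · simp
        · exact le_self_add)
      rw [if_pos hV] at this
      simpa using this
    · have := step β e h
      rw [if_neg hV] at this ⊢
      refine this.trans (le_of_eq ?_)
      push_cast
      ring

end Pool.Agent.IPR
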