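import Pool.Agent.IPR.Final

set_option linter.unusedSimpArgs false

namespace Pool.Agent.IPR

variable {α β : Type}

/-- Trees without coins (and without prover if `a` is false). -/
def G.nf (a : Bool) : G α → Prop
  | .ret _ => True
  | .flip _ => False
  | .ask _ k => a = true ∧ ∀ y, (k y).nf a
  | .qry _ k => ∀ b, (k b).nf a

theorem nf_bind {a : Bool} {t : G α} {g : α → G β} (h1 : t.nf a) (h2 : ∀ x, (g x).nf a) :
    (t.bind g).nf a := by
  induction t with
  | ret x => exact h2 x
  | flip k ih => exact h1.elim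
  | ask w k ih => exact ⟨h1.1, fun y => ih y (h1.2 y)⟩
  | qry w k ih => exact fun b => ih b (h1 b)

theorem nf_exec {a : Bool} : ∀ (C : Cmd), C.ok a → ∀ x, (exec C x).nf a := by
  intro C
  induction C with
  | skip => intro _ x; trivial
  | push i e => intro _ x; trivial
  | set i e => intro _ x; trivial
  | pop i => intro _ x; trivial
  | flip i => intro h; exact h.elim
  | ask i e => intro h x; exact ⟨h, fun _ => trivial⟩
  | qry i j => intro _ x; exact fun _ => trivial
  | seq C D ihC ihD =>
    intro h x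
    exact nf_bind (ihC h.1 x) (ihD h.2)
  | ite e C D ihC ihD =>
    intro h x
    rw [exec.eq_9]
    split_ifs
    · exact ihC h.1 _
    · exact ihD h.2 _
  | loop i C ih =>
    intro h x
    rw [exec.eq_10]
    have key : ∀ (n : ℕ) (y : St × ℕ), (iter (fun y => exec C (y.1, y.2 + 1)) n y).nf a := by
      intro n
      induction n with
      | zero => intro y; trivial
      | succ n ihn => intro y; exact nf_bind (ih h _) ihn
    exact key _ _

theorem pr_congr {A : Set (List Bool)} {P P' : List ℝ → ℝ} {t : G (St × ℕ)} :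
    ∀ {h : List ℝ}, (∀ g : List ℝ, h.length < g.length → P g = P' g) →
    pr A P h t = pr A P' h t := by
  induction t with
  | ret a => intro h _; rfl
  | flip k ih => intro h hg; simp only [pr]; rw [ih false hg, ih true hg]
  | ask w k ih =>
    intro h hg
    simp only [pr]
    rw [hg (w :: h) (by simp)]
    exact ih _ fun g hl => hg g (by rw [List.length_cons] at hl; omega)
  | qry w k ih => intro h hg; simp only [pr]; exact ih _ hg

theorem exists_prover {A : Set (List Bool)} {t : G (St × ℕ)} (hn : t.nf true) :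
    ∀ h : List ℝ, ¬ allA A (fun y => ¬ Acc y) t → ∃ P, pr A P h t = 1 := by
  classical
  induction t with
  | ret a =>
    intro h h1
    refine ⟨fun _ => 0, ?_⟩
    simp only [allA, not_not] at h1
    simp [pr, h1]
  | flip k ih => exact hn.elim
  | ask w k ih =>
    intro h h1
    simp only [allA, not_forall] at h1
    obtain ⟨y, hy⟩ := h1
    obtain ⟨P', hP'⟩ := ih y (hn.2 y) (w :: h) hy
    refine ⟨fun g => if g.length = h.length + 1 then y else P' g, ?_⟩
    simp only [pr, List.length_cons, if_true]
    rw [← hP']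
    refine pr_congr fun g hg => ?_
    rw [List.length_cons] at hg
    rw [if_neg (by omega)]
  | qry w k ih =>
    intro h h1
    simp only [allA, not_forall] at h1
    obtain ⟨b, hb, hy⟩ := h1
    obtain ⟨P', hP'⟩ := ih b (hn b) h hy
    refine ⟨P', ?_⟩
    have : b = decide (w ∈ emb A) := by
      cases b
      · by_cases hw : w ∈ emb A
        · exact absurd (hb.2 hw) (by simp)
        · simp [hw]
      · simp [hb.1 rfl]
    simp only [pr]
    rw [← this]
    exact hP'

/-- Nondeterministic polynomial time with a Boolean oracle is inside `IP`. -/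
theorem np_le_ip (A : Set (List Bool)) (L : Set (List ℝ)) (h : InC true A L) : InIP L := by
  obtain ⟨C, hok, hpt, hL⟩ := h
  obtain ⟨p, hp⟩ := hpt
  obtain ⟨d, hd, hb⟩ := poly_bound' p
  refine ⟨VV (cst A) d C, time_VV A C d ⟨p, hp⟩, fun x hx => ⟨fun hxL => ?_, fun hxL P => ?_⟩⟩
  · obtain ⟨PA, hPA⟩ := (hL x hx).1 hxL
    exact ⟨hon PA, compl_VV A C hok d hd x PA hPA⟩
  · refine sound_VV A C hok d (p.eval x.length) x (hb _) ?_ P
    refine allA_and (allA_of_all (hp x)) ?_
    by_contra hcon
    obtain ⟨P', hP'⟩ := exists_prover (nf_exec C hok _) [] hcon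
    exact hxL ((hL x hx).2 ⟨P', hP'⟩)

/-- Deterministic trees have one outcome. -/
theorem det_iff {A : Set (List Bool)} {Q : St × ℕ → Prop} {t : G (St × ℕ)}
    (hn : t.nf false) (P : List ℝ → ℝ) (h : List ℝ) :
    allA A Q t ↔ hp A P h t fun a _ => Q a := by
  induction t with
  | ret a => rfl
  | flip k ih => exact hn.elim
  | ask w k ih => exact absurd hn.1 (by simp)
  | qry w k ih => exact forall_congr' fun b => imp_congr_right fun _ => ih b (hn b)

theorem det_not {A : Set (List Bool)} {Q : St × ℕ → Prop} {t : G (St × ℕ)}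
    (hn : t.nf false) : ¬ allA A Q t ↔ allA A (fun a => ¬ Q a) t := by
  classical
  induction t with
  | ret a => rfl
  | flip k ih => exact hn.elim
  | ask w k ih => exact absurd hn.1 (by simp)
  | qry w k ih =>
    simp only [allA]
    constructor
    · intro h b hb
      refine (ih b (hn b)).1 fun h5 => h fun b' hb' => ?_
      have : b' = b := by
        by_cases hw : w ∈ emb A
        · rw [hb.2 hw, hb'.2 hw]
        · cases b <;> cases b' <;> simp_all
      rw [this]; exact h5
    · intro h h5
      have h6 := h (decide (w ∈ emb A)) (by simp)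
      exact (ih _ (hn _)).2 h6 (h5 _ (by simp))

/-- Negation of the output. -/
noncomputable def NEG : Cmd :=
  .ite (.sub (.t 0) (.c 1)) (.ite (.sub (.c 1) (.t 0)) (.push 0 (.c 0)) (.push 0 (.c 1)))
    (.push 0 (.c 1))

theorem exec_neg (s : St) (t : ℕ) : ∃ y : St × ℕ, y.2 ≤ t + 5 ∧ exec NEG (s, t) = .ret y ∧
    (Acc y ↔ ¬ Acc (s, t)) := by
  by_cases h : (s 0).headD 0 = 1
  · have h1 : (0 : ℝ) ≤ (s 0).headD 0 - 1 := by linarith
    have h2 : (0 : ℝ) ≤ 1 - (s 0).headD 0 := by linarith
    simp only [NEG, exec, Ex.val, Ex.ops, h1, h2, if_true]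
    refine ⟨_, ?_, rfl, ?_⟩
    · simp only; omega
    · simp only [Acc, h]; simp
  · by_cases h1 : (0 : ℝ) ≤ (s 0).headD 0 - 1
    · have h2 : ¬ (0 : ℝ) ≤ 1 - (s 0).headD 0 := fun h5 => h (by linarith)
      simp only [NEG, exec, Ex.val, Ex.ops, h1, h2, if_true, if_false]
      refine ⟨_, ?_, rfl, ?_⟩
      · simp only; omega
      · have e1 : Acc (s, t) ↔ (s 0).headD 0 = 1 := Iff.rfl
        rw [e1]
        simp only [h, not_false_iff, iff_true]
        simp [Acc]
    · simp only [NEG, exec, Ex.val, Ex.ops, h1, if_false]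
      refine ⟨_, ?_, rfl, ?_⟩
      · simp only; omega
      · have e1 : Acc (s, t) ↔ (s 0).headD 0 = 1 := Iff.rfl
        rw [e1]
        simp only [h, not_false_iff, iff_true]
        simp [Acc]

theorem p_compl (A : Set (List Bool)) (L : Set (List ℝ)) (h : InC false A L) :
    InC false A Lᶜ := by
  obtain ⟨C, hok, ⟨p, hp⟩, hL⟩ := h
  have hok' : (Cmd.seq C NEG).ok false := ⟨hok, by simp [NEG, Cmd.ok]⟩
  refine ⟨.seq C NEG, hok', ⟨p + 5, fun x => ?_⟩, fun x hx => ?_⟩
  · rw [run_eq, exec.eq_8, all_bind]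
    refine all_mono ?_ (hp x)
    rintro ⟨s1, t1⟩ h1
    obtain ⟨y, h2, h3, -⟩ := exec_neg s1 t1
    rw [h3]
    simp only [G.all, Polynomial.eval_add, Polynomial.eval_ofNat] at h1 ⊢
    omega
  · have h1 : (∃ P, pr A P [] (run C x) = 1) ↔ allA A Acc (run C x) := by
      constructor
      · rintro ⟨P, hP⟩
        rw [pr_eq_one_iff] at hP
        exact (det_iff (nf_exec C hok _) P []).2 hP
      · intro h2
        refine ⟨fun _ => 0, ?_⟩
        rw [pr_eq_one_iff]
        exact (det_iff (nf_exec C hok _) _ []).1 h2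
    have h2 : (∃ P, pr A P [] (run (.seq C NEG) x) = 1) ↔
        allA A Acc (run (.seq C NEG) x) := by
      constructor
      · rintro ⟨P, hP⟩
        rw [pr_eq_one_iff] at hP
        exact (det_iff (nf_exec _ hok' _) P []).2 hP
      · intro h2
        refine ⟨fun _ => 0, ?_⟩
        rw [pr_eq_one_iff]
        exact (det_iff (nf_exec _ hok' _) _ []).1 h2
    rw [h2, Set.mem_compl_iff, hL x hx, h1, run_eq, det_not (nf_exec C hok _), run_eq, exec.eq_8,
      allA_bind]
    constructor
    · intro h3
      refine allA_mono ?_ h3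
      rintro ⟨s1, t1⟩ h4
      obtain ⟨y, -, h6, h7⟩ := exec_neg s1 t1
      rw [h6]
      exact h7.2 h4
    · intro h3
      refine allA_mono ?_ h3
      rintro ⟨s1, t1⟩ h4
      obtain ⟨y, -, h6, h7⟩ := exec_neg s1 t1
      rw [h6] at h4
      exact h7.1 h4

theorem ok_mono : ∀ C : Cmd, C.ok false → C.ok true := by
  intro C
  induction C with
  | skip => exact id
  | push i e => exact id
  | set i e => exact id
  | pop i => exact id
  | flip i => exact id
  | ask i e => intro _; rfl
  | qry i j => exact id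
  | seq C D ihC ihD => exact fun h => ⟨ihC h.1, ihD h.2⟩
  | ite e C D ihC ihD => exact fun h => ⟨ihC h.1, ihD h.2⟩
  | loop i C ih => exact ih

theorem p_le_np (A : Set (List Bool)) (L : Set (List ℝ)) (h : InC false A L) : InC true A L := by
  obtain ⟨C, hok, hp, hL⟩ := h
  exact ⟨C, ok_mono C hok, hp, hL⟩

theorem bool_p (B : Set (List Bool)) : InC false B (emb B) := by
  classical
  refine ⟨.seq (.qry 0 1) (.push 0 (.t 1)), ⟨trivial, trivial⟩, ⟨2, fun x => ?_⟩, fun x _ => ?_⟩
  · simp [run, exec, G.bind, G.all, Ex.ops]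
  · constructor
    · intro hx
      refine ⟨fun _ => 0, ?_⟩
      simp [run, exec, G.bind, pr, Ex.val, Acc, hx, bit]
    · rintro ⟨P, hP⟩
      by_contra hx
      simp [run, exec, G.bind, pr, Ex.val, Acc, hx, bit] at hP

end Pool.Agent.IPR
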