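import Pool.Agent.IPR.Wp
import Pool.Agent.IPR.Const

namespace Pool.Agent.IPR

open scoped ENNReal

/-- State with twelve work stacks and the stacks `s` behind them. -/
def mk (F U T L J V W P B S R A : List ℝ) (s : St) : St
  | 0 => F
  | 1 => U
  | 2 => T
  | 3 => L
  | 4 => J
  | 5 => V
  | 6 => W
  | 7 => P
  | 8 => B
  | 9 => S
  | 10 => R
  | 11 => A
  | n + 12 => s n

section upd

variable (F U T L J V W P B S R A x : List ℝ) (s : St)

@[simp] theorem mk_0 : mk F U T L J V W P B S R A s 0 = F := rfl
@[simp] theorem mk_1 : mk F U T L J V W P B S R A s 1 = U := rfl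
@[simp] theorem mk_2 : mk F U T L J V W P B S R A s 2 = T := rfl
@[simp] theorem mk_3 : mk F U T L J V W P B S R A s 3 = L := rfl
@[simp] theorem mk_4 : mk F U T L J V W P B S R A s 4 = J := rfl
@[simp] theorem mk_5 : mk F U T L J V W P B S R A s 5 = V := rfl
@[simp] theorem mk_6 : mk F U T L J V W P B S R A s 6 = W := rfl
@[simp] theorem mk_7 : mk F U T L J V W P B S R A s 7 = P := rfl
@[simp] theorem mk_8 : mk F U T L J V W P B S R A s 8 = B := rfl
@[simp] theorem mk_9 : mk F U T L J V W P B S R A s 9 = S := rfl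
@[simp] theorem mk_10 : mk F U T L J V W P B S R A s 10 = R := rfl
@[simp] theorem mk_11 : mk F U T L J V W P B S R A s 11 = A := rfl
@[simp] theorem mk_add (n : ℕ) : mk F U T L J V W P B S R A s (n + 12) = s n := rfl

@[simp] theorem upd_0 : Function.update (mk F U T L J V W P B S R A s) 0 x
    = mk x U T L J V W P B S R A s := by
  funext i; match i with
  | 0 | 1 | 2 | 3 | 4 | 5 | 6 | 7 | 8 | 9 | 10 | 11 | n + 12 => simp [mk, Function.update]

@[simp] theorem upd_1 : Function.update (mk F U T L J V W P B S R A s) 1 x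
    = mk F x T L J V W P B S R A s := by
  funext i; match i with
  | 0 | 1 | 2 | 3 | 4 | 5 | 6 | 7 | 8 | 9 | 10 | 11 | n + 12 => simp [mk, Function.update]

@[simp] theorem upd_2 : Function.update (mk F U T L J V W P B S R A s) 2 x
    = mk F U x L J V W P B S R A s := by
  funext i; match i with
  | 0 | 1 | 2 | 3 | 4 | 5 | 6 | 7 | 8 | 9 | 10 | 11 | n + 12 => simp [mk, Function.update]

@[simp] theorem upd_3 : Function.update (mk F U T L J V W P B S R A s) 3 x
    = mk F U T x J V W P B S R A s := by
  funext i; match i with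
  | 0 | 1 | 2 | 3 | 4 | 5 | 6 | 7 | 8 | 9 | 10 | 11 | n + 12 => simp [mk, Function.update]

@[simp] theorem upd_4 : Function.update (mk F U T L J V W P B S R A s) 4 x
    = mk F U T L x V W P B S R A s := by
  funext i; match i with
  | 0 | 1 | 2 | 3 | 4 | 5 | 6 | 7 | 8 | 9 | 10 | 11 | n + 12 => simp [mk, Function.update]

@[simp] theorem upd_5 : Function.update (mk F U T L J V W P B S R A s) 5 x
    = mk F U T L J x W P B S R A s := by
  funext i; match i with
  | 0 | 1 | 2 | 3 | 4 | 5 | 6 | 7 | 8 | 9 | 10 | 11 | n + 12 => simp [mk, Function.update]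

@[simp] theorem upd_6 : Function.update (mk F U T L J V W P B S R A s) 6 x
    = mk F U T L J V x P B S R A s := by
  funext i; match i with
  | 0 | 1 | 2 | 3 | 4 | 5 | 6 | 7 | 8 | 9 | 10 | 11 | n + 12 => simp [mk, Function.update]

@[simp] theorem upd_7 : Function.update (mk F U T L J V W P B S R A s) 7 x
    = mk F U T L J V W x B S R A s := by
  funext i; match i with
  | 0 | 1 | 2 | 3 | 4 | 5 | 6 | 7 | 8 | 9 | 10 | 11 | n + 12 => simp [mk, Function.update]

@[simp] theorem upd_8 : Function.update (mk F U T L J V W P B S R A s) 8 x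
    = mk F U T L J V W P x S R A s := by
  funext i; match i with
  | 0 | 1 | 2 | 3 | 4 | 5 | 6 | 7 | 8 | 9 | 10 | 11 | n + 12 => simp [mk, Function.update]

@[simp] theorem upd_9 : Function.update (mk F U T L J V W P B S R A s) 9 x
    = mk F U T L J V W P B x R A s := by
  funext i; match i with
  | 0 | 1 | 2 | 3 | 4 | 5 | 6 | 7 | 8 | 9 | 10 | 11 | n + 12 => simp [mk, Function.update]

@[simp] theorem upd_10 : Function.update (mk F U T L J V W P B S R A s) 10 x
    = mk F U T L J V W P B S x A s := by
  funext i; match i with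
  | 0 | 1 | 2 | 3 | 4 | 5 | 6 | 7 | 8 | 9 | 10 | 11 | n + 12 => simp [mk, Function.update]

@[simp] theorem upd_11 : Function.update (mk F U T L J V W P B S R A s) 11 x
    = mk F U T L J V W P B S R x s := by
  funext i; match i with
  | 0 | 1 | 2 | 3 | 4 | 5 | 6 | 7 | 8 | 9 | 10 | 11 | n + 12 => simp [mk, Function.update]

@[simp] theorem upd_add (n : ℕ) : Function.update (mk F U T L J V W P B S R A s) (n + 12) x
    = mk F U T L J V W P B S R A (Function.update s n x) := by
  funext i; match i with
  | 0 | 1 | 2 | 3 | 4 | 5 | 6 | 7 | 8 | 9 | 10 | 11 => simp [mk, Function.update]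
  | m + 12 => simp [mk, Function.update]

end upd

/-- Move stack `a` on top of stack `b`, in reversed order. -/
def MOVE (a b : ℕ) : Cmd := .loop a (.seq (.push b (.t a)) (.pop a))

/-- Empty stack `a`. -/
def CLR (a : ℕ) : Cmd := .loop a (.pop a)

/-- Read one entry of the query word. -/
noncomputable def READ1 (q : ℕ) : Cmd :=
  .seq (.push (q + 12) (.t 2)) <|
  .seq (.set 4 (.mul (.t 4) (.t 4))) <|
  .seq (.ite (.sub (.t 2) (.c 1))
    (.ite (.sub (.c 1) (.t 2)) (.set 4 (.mul (.c 4) (.t 4))) (.set 8 (.c 0)))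
    (.ite (.t 2) (.ite (.sub (.c 0) (.t 2)) .skip (.set 8 (.c 0))) (.set 8 (.c 0)))) <|
  .seq (.push 3 (.mul (.t 3) (.t 3))) <|
  .pop 2

/-- Read the query word. -/
noncomputable def READ (q : ℕ) : Cmd :=
  .seq (MOVE (q + 12) 2) <|
  .seq (.push 3 (.c 2)) <|
  .seq (.push 3 (.c 4)) <|
  .seq (.push 4 (.c 4)) <|
  .seq (.push 8 (.c 1)) <|
  .loop 2 (READ1 q)

/-- Get the integer part from the prover. -/
noncomputable def MSG (c : ℝ) : Cmd :=
  .seq (.ask 11 (.c 4)) <|
  .seq (.pop 11) <|
  .seq (.ask 11 (.mul (.t 4) (.c c))) <|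
  .seq (.push 10 (.sub (.mul (.t 4) (.c c)) (.mul (.c 4) (.t 11)))) <|
  .seq (.ite (.t 10) .skip (.set 0 (.c 0))) <|
  .seq (.ite (.sub (.t 10) (.c 4)) (.set 0 (.c 0)) .skip) <|
  .seq (.push 5 (.t 11)) <|
  .seq (.pop 11) <|
  .push 7 (.c 1)

/-- Decompose the top of stack `5`. -/
noncomputable def DEC1 : Cmd :=
  .seq (.ask 11 (.t 3)) <|
  .seq (.pop 11) <|
  .seq (.ask 11 (.t 5)) <|
  .seq (.push 6 (.t 11)) <|
  .seq (.push 6 (.sub (.t 5) (.mul (.t 3) (.t 11)))) <|
  .seq (.pop 11) <|
  .pop 5

/-- One random row. -/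
noncomputable def ADD1 : Cmd :=
  .seq (.flip 11) <|
  .seq (.set 9 (.add (.t 9) (.mul (.t 11) (.t 6)))) <|
  .seq (.pop 11) <|
  .seq (.push 2 (.t 6)) <|
  .pop 6

noncomputable def ROW : Cmd :=
  .seq (.push 9 (.c 0)) <|
  .seq (.loop 6 ADD1) <|
  .seq (MOVE 2 6) <|
  .seq (.push 5 (.t 9)) <|
  .seq (.pop 9) <|
  .push 7 (.mul (.c 2) (.t 7))

noncomputable def LEV1 (q : ℕ) : Cmd :=
  .seq (.loop 5 DEC1) <|
  .seq (.loop 1 ROW) <|
  .seq (.loop (q + 12) ROW) <|
  .seq (CLR 6) <|
  .pop 3

noncomputable def SUB1 : Cmd :=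
  .seq (.ite (.sub (.t 5) (.t 7)) (.set 5 (.sub (.t 5) (.t 7))) .skip) <|
  .seq (.push 2 (.t 7)) <|
  .pop 7

noncomputable def FIN1 : Cmd :=
  .seq (.loop 7 SUB1) <|
  .seq (MOVE 2 7) <|
  .seq (.ite (.t 5) .skip (.set 0 (.c 0))) <|
  .seq (.ite (.sub (.c 0) (.t 5)) .skip (.set 0 (.c 0))) <|
  .pop 5

noncomputable def ANS (j : ℕ) : Cmd :=
  .seq (CLR 7) <|
  .seq (.ite (.sub (.t 10) (.c 1)) (.push (j + 12) (.t 8)) (.push (j + 12) (.c 0))) <|
  .seq (.pop 10) <|
  .seq (.pop 8) <|
  .pop 4

/-- The protocol that replaces a query. -/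
noncomputable def VER (c : ℝ) (q j : ℕ) : Cmd :=
  .seq (READ q) <|
  .seq (MSG c) <|
  .seq (.loop 3 (LEV1 q)) <|
  .seq (.loop 5 FIN1) <|
  ANS j

theorem exec_clr (a : ℕ) (s : St) (t : ℕ) :
    exec (CLR a) (s, t) = .ret (Function.update s a [], t + 1 + 2 * (s a).length) := by
  have key : ∀ (l : List ℝ) (s : St) (t : ℕ), s a = l →
      iter (fun y => exec (.pop a) (y.1, y.2 + 1)) l.length (s, t)
        = .ret (Function.update s a [], t + 2 * l.length) := by
    intro l
    induction l with
    | nil =>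
      intro s t h
      simp only [List.length_nil, iter, mul_zero, add_zero]
      rw [← h, Function.update_eq_self]
    | cons x l ih =>
      intro s t h
      simp only [List.length_cons, iter, exec, G.bind]
      have h1 := ih (Function.update s a (s a).tail) (t + 1 + 1) (by simp [h])
      simp only [exec] at h1
      rw [h1]
      simp only [Function.update_idem]
      congr 2
      ring
  simp only [CLR, exec]
  have := key (s a) s (t + 1) rfl
  simp only [exec] at this
  exact this

theorem exec_move (a b : ℕ) (hab : a ≠ b) (s : St) (t : ℕ) :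
    exec (MOVE a b) (s, t) = .ret
      (Function.update (Function.update s b ((s a).reverse ++ s b)) a [],
        t + 1 + 3 * (s a).length) := by
  have key : ∀ (l : List ℝ) (s : St) (t : ℕ), s a = l →
      iter (fun y => exec (.seq (.push b (.t a)) (.pop a)) (y.1, y.2 + 1)) l.length (s, t)
        = .ret (Function.update (Function.update s b (l.reverse ++ s b)) a [],
          t + 3 * l.length) := by
    intro l
    induction l with
    | nil =>
      intro s t h
      simp only [List.length_nil, iter, mul_zero, add_zero, List.reverse_nil, List.nil_append,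
        Function.update_eq_self]
      rw [← h, Function.update_eq_self]
    | cons x l ih =>
      intro s t h
      simp only [List.length_cons, iter, exec, G.bind]
      set s2 : St := Function.update (Function.update s b (Ex.val s (.t a) :: s b)) a
        ((Function.update s b (Ex.val s (.t a) :: s b)) a).tail with hs2
      have e1 : s2 a = l := by
        rw [hs2, Function.update_self, Function.update_of_ne hab, h, List.tail_cons]
      have e2 : s2 b = x :: s b := by
        rw [hs2, Function.update_of_ne hab.symm, Function.update_self]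
        simp [Ex.val, h]
      have h1 := ih s2 (t + 1 + (Ex.t a).ops + 1 + 1) e1
      simp only [exec, G.bind] at h1
      rw [h1, e2]
      congr 2
      · funext i
        by_cases hi : i = a
        · subst hi; simp
        · by_cases hj : i = b
          · subst hj
            simp [Function.update_of_ne hi]
          · simp [Function.update_of_ne hi, Function.update_of_ne hj, hs2]
      · simp only [Ex.ops]; ring
  simp only [MOVE, exec]
  have := key (s a) s (t + 1) rfl
  simp only [exec] at this
  exact this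

end Pool.Agent.IPR
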