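import Pool.Agent.IPR.Read

set_option linter.unusedSimpArgs false

namespace Pool.Agent.IPR

open scoped ENNReal

/-- All entries are integers. -/
def AllInt (V : List ℝ) : Prop := ∀ v ∈ V, ∃ k : ℤ, (k : ℝ) = v

theorem allInt_nil : AllInt [] := by intro v hv; simp at hv

theorem allInt_cons {x : ℝ} {V : List ℝ} :
    AllInt (x :: V) ↔ (∃ k : ℤ, (k : ℝ) = x) ∧ AllInt V := by
  simp [AllInt]

theorem half_self (a : ℝ≥0∞) : (a + a) / 2 = a := by
  rw [← two_mul, mul_comm, mul_div_assoc, ENNReal.div_self (by simp) (by simp), mul_one]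

theorem half_le {a b c : ℝ≥0∞} (h1 : a ≤ c) (h2 : b ≤ c) : (a + b) / 2 ≤ c :=
  (ENNReal.div_le_div_right (add_le_add h1 h2) 2).trans (half_self c).le

theorem half_add_le {a b c e : ℝ≥0∞} (h1 : a ≤ c) (h2 : b ≤ c + e) :
    (a + b) / 2 ≤ c + e / 2 := by
  have h3 : (c + (c + e)) / 2 = c + e / 2 := by
    rw [← add_assoc, ENNReal.add_div, half_self]
  rw [← h3]
  exact ENNReal.div_le_div_right (add_le_add h1 h2) 2

/-- The powers `2 ^ (k - 1), …, 2, 1`. -/
noncomputable def pw : ℕ → List ℝ
  | 0 => []
  | k + 1 => 2 ^ k :: pw k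

theorem pw_length (k : ℕ) : (pw k).length = k := by
  induction k with
  | zero => rfl
  | succ k ih => simp [pw, ih]

open Classical in
theorem wp_addloop {β e : ℝ≥0∞} (F U L J V P B R : List ℝ) (s : St)
    (Φ : St × ℕ → ℝ≥0∞) : ∀ (W T : List ℝ) (σ : ℝ) (t : ℕ),
    (∀ σ' t', t' ≤ t + 8 * W.length →
      Φ (mk F U (W.reverse ++ T) L J V [] P B [σ'] R [] s, t')
        ≤ if ∃ k : ℤ, (k : ℝ) = σ' then β + e else β) →
    wp Φ (iter (fun y => exec ADD1 (y.1, y.2 + 1)) W.length
      (mk F U T L J V W P B [σ] R [] s, t))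
      ≤ if AllInt W then (if ∃ k : ℤ, (k : ℝ) = σ then β + e else β) else β + e / 2 := by
  intro W
  induction W with
  | nil =>
    intro T σ t h
    simp only [List.length_nil, iter, wp, allInt_nil, if_true]
    exact h σ t (by simp)
  | cons x W ih =>
    intro T σ t h
    have h0 : ∀ b : Bool, wp Φ (iter (fun y => exec ADD1 (y.1, y.2 + 1)) W.length
        (mk F U (x :: T) L J V W P B [σ + bit b * x] R [] s, t + 8))
        ≤ if AllInt W then (if ∃ k : ℤ, (k : ℝ) = σ + bit b * x then β + e else β)
          else β + e / 2 := by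
      intro b
      refine ih (x :: T) (σ + bit b * x) (t + 8) fun σ' t' ht' => ?_
      have := h σ' t' (by simp only [List.length_cons]; omega)
      simpa using this
    have hE : wp Φ (iter (fun y => exec ADD1 (y.1, y.2 + 1)) (x :: W).length
        (mk F U T L J V (x :: W) P B [σ] R [] s, t))
        = (wp Φ (iter (fun y => exec ADD1 (y.1, y.2 + 1)) W.length
            (mk F U (x :: T) L J V W P B [σ + bit false * x] R [] s, t + 8))
          + wp Φ (iter (fun y => exec ADD1 (y.1, y.2 + 1)) W.length
            (mk F U (x :: T) L J V W P B [σ + bit true * x] R [] s, t + 8))) / 2 := by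
      simp only [List.length_cons, iter, ADD1, exec, G.bind, wp, Ex.val, Ex.ops, mk_11, mk_9,
        mk_6, mk_2, upd_11, upd_9, upd_6, upd_2, List.headD_cons, List.tail_cons]
    rw [hE]
    have hf := h0 false
    have ht := h0 true
    have ef : σ + bit false * x = σ := by simp [bit]
    have et : σ + bit true * x = σ + x := by simp [bit]
    rw [ef] at hf
    rw [et] at ht
    rw [ef, et]
    by_cases hW : AllInt W
    · rw [if_pos hW] at hf ht
      by_cases hx : ∃ k : ℤ, (k : ℝ) = x
      · rw [if_pos (allInt_cons.2 ⟨hx, hW⟩)]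
        obtain ⟨kx, rfl⟩ := hx
        have hiff : (∃ k : ℤ, (k : ℝ) = σ + kx) ↔ ∃ k : ℤ, (k : ℝ) = σ := by
          constructor
          · rintro ⟨k, hk⟩; exact ⟨k - kx, by push_cast; linarith⟩
          · rintro ⟨k, hk⟩; exact ⟨k + kx, by push_cast; linarith⟩
        have ht' : _ ≤ if ∃ k : ℤ, (k : ℝ) = σ then β + e else β := ht.trans (by
          by_cases h5 : ∃ k : ℤ, (k : ℝ) = σ
          · rw [if_pos h5, if_pos (hiff.2 h5)]
          · rw [if_neg h5, if_neg fun h6 => h5 (hiff.1 h6)])
        exact half_le hf ht'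
      · rw [if_neg fun h5 => hx (allInt_cons.1 h5).1]
        by_cases hσ : ∃ k : ℤ, (k : ℝ) = σ
        · rw [if_pos hσ] at hf
          have : ¬ ∃ k : ℤ, (k : ℝ) = σ + x := by
            rintro ⟨k, hk⟩
            obtain ⟨k', hk'⟩ := hσ
            exact hx ⟨k - k', by push_cast; linarith⟩
          rw [if_neg this] at ht
          rw [add_comm (wp _ _)]
          exact half_add_le ht hf
        · rw [if_neg hσ] at hf
          refine half_add_le hf (ht.trans ?_)
          split_ifs
          · exact le_rfl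
          · exact le_self_add
    · rw [if_neg fun h5 => hW (allInt_cons.1 h5).2]
      rw [if_neg hW] at hf ht
      exact half_le hf ht

open Classical in
theorem wp_row {β e : ℝ≥0∞} (F U L J V W B R : List ℝ) (k : ℕ) (s : St) (t : ℕ)
    (Φ : St × ℕ → ℝ≥0∞)
    (h : ∀ σ t', t' ≤ t + 11 * W.length + 8 →
      Φ (mk F U [] L J (σ :: V) W (pw (k + 2)) B [] R [] s, t')
        ≤ if ∃ k : ℤ, (k : ℝ) = σ then β + e else β) :
    wp Φ (exec ROW (mk F U [] L J V W (pw (k + 1)) B [] R [] s, t))
      ≤ if AllInt W then β + e else β + e / 2 := by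
  have h0 : ∃ z : ℤ, (z : ℝ) = 0 := ⟨0, by simp⟩
  have h1 := wp_addloop F U L J V (pw (k + 1)) B R s (β := β) (e := e)
    (fun x => wp Φ (exec (.seq (MOVE 2 6) (.seq (.push 5 (.t 9)) (.seq (.pop 9)
      (.push 7 (.mul (.c 2) (.t 7)))))) x)) W [] 0 (t + 2) ?_
  · rw [if_pos h0] at h1
    refine le_trans (le_of_eq ?_) h1
    simp only [ROW, exec, G.bind, wp_bind, Ex.val, Ex.ops, mk_9, upd_9, wp]
    simp only [mk_6]
  · intro σ' t' ht'
    have hm := exec_move 2 6 (by omega)
      (mk F U (W.reverse ++ []) L J V [] (pw (k + 1)) B [σ'] R [] s) t'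
    simp only [mk_2, mk_6, upd_6, upd_2, List.append_nil, List.reverse_reverse,
      List.length_reverse] at hm
    simp only [List.append_nil, exec] at hm ⊢
    rw [hm]
    simp only [G.bind, wp, Ex.val, Ex.ops, mk_9, mk_5, upd_5, upd_9, mk_7, upd_7,
      List.headD_cons, List.tail_cons]
    have hp : (2 : ℝ) * (pw (k + 1)).headD 0 :: pw (k + 1) = pw (k + 2) := by
      simp only [pw, List.headD_cons]
      rw [pow_succ' 2 k]
    rw [hp]
    exact h σ' _ (by omega)

open Classical in
theorem wp_rows {β : ℝ≥0∞} (F U L J W B R : List ℝ) (s : St) (Φ : St × ℕ → ℝ≥0∞) :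
    ∀ (n : ℕ) (V : List ℝ) (k t : ℕ) (e : ℝ≥0∞),
    (∀ V' t', V'.length = V.length + n → t' ≤ t + n * (11 * W.length + 9) →
      Φ (mk F U [] L J V' W (pw (k + 1 + n)) B [] R [] s, t')
        ≤ if AllInt V' then β + e else β) →
    wp Φ (iter (fun y => exec ROW (y.1, y.2 + 1)) n
      (mk F U [] L J V W (pw (k + 1)) B [] R [] s, t))
      ≤ if AllInt V then (if AllInt W then β + e else β + e / 2 ^ n) else β := by
  intro n
  induction n with
  | zero =>
    intro V k t e h
    simp only [iter, wp]
    refine (h V t rfl (by simp)).trans ?_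
    by_cases hV : AllInt V
    · rw [if_pos hV, if_pos hV]
      split_ifs
      · exact le_rfl
      · simp
    · rw [if_neg hV, if_neg hV]
  | succ n ih =>
    intro V k t e h
    simp only [iter, wp_bind]
    by_cases hV : AllInt V
    · rw [if_pos hV]
      by_cases hW : AllInt W
      · rw [if_pos hW]
        have := wp_row (β := β + e) (e := 0) F U L J V W B R k s (t + 1)
          (fun x => wp Φ (iter (fun y => exec ROW (y.1, y.2 + 1)) n x)) (fun σ t' ht' => ?_)
        · rw [if_pos hW] at this
          simpa using this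
        · have h2 := ih (σ :: V) (k + 1) t' e (fun V' t'' hV' ht'' => by
            have := h V' t'' (by rw [hV', List.length_cons]; omega)
              (by rw [Nat.succ_mul]; omega)
            rw [show k + 1 + (n + 1) = k + 1 + 1 + n by ring] at this
            exact this)
          have h3 : (if ∃ k : ℤ, (k : ℝ) = σ then β + e + 0 else β + e) = β + e := by simp
          rw [h3]
          refine h2.trans ?_
          rw [if_pos hW]
          split_ifs
          · exact le_rfl
          · exact le_self_add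
      · rw [if_neg hW]
        have := wp_row (β := β) (e := e / 2 ^ n) F U L J V W B R k s (t + 1)
          (fun x => wp Φ (iter (fun y => exec ROW (y.1, y.2 + 1)) n x)) (fun σ t' ht' => ?_)
        · rw [if_neg hW] at this
          refine this.trans (le_of_eq ?_)
          rw [pow_succ, ENNReal.div_eq_inv_mul, ENNReal.div_eq_inv_mul, ENNReal.div_eq_inv_mul,
            ← mul_assoc, ENNReal.mul_inv (by simp) (by simp), mul_comm (2⁻¹ : ℝ≥0∞)]
        · have h2 := ih (σ :: V) (k + 1) t' e (fun V' t'' hV' ht'' => by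
            have := h V' t'' (by rw [hV', List.length_cons]; omega)
              (by rw [Nat.succ_mul]; omega)
            rw [show k + 1 + (n + 1) = k + 1 + 1 + n by ring] at this
            exact this)
          refine h2.trans ?_
          rw [if_neg hW]
          by_cases hσ : ∃ k : ℤ, (k : ℝ) = σ
          · rw [if_pos hσ, if_pos (allInt_cons.2 ⟨hσ, hV⟩)]
          · rw [if_neg hσ, if_neg fun h5 => hσ (allInt_cons.1 h5).1]
    · rw [if_neg hV]
      have := wp_row (β := β) (e := 0) F U L J V W B R k s (t + 1)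
          (fun x => wp Φ (iter (fun y => exec ROW (y.1, y.2 + 1)) n x)) (fun σ t' ht' => ?_)
      · simpa using this
      · have h2 := ih (σ :: V) (k + 1) t' e (fun V' t'' hV' ht'' => by
          have := h V' t'' (by rw [hV', List.length_cons]; omega)
            (by rw [Nat.succ_mul]; omega)
          rw [show k + 1 + (n + 1) = k + 1 + 1 + n by ring] at this
          exact this)
        rw [if_neg fun h5 => hV (allInt_cons.1 h5).2] at h2
        simpa using h2

open Classical in
theorem wp_dec {β e : ℝ≥0∞} (F U L J P B R : List ℝ) (l : ℤ) (s : St)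
    (Φ : St × ℕ → ℝ≥0∞) : ∀ (V W : List ℝ) (t : ℕ),
    (∀ W' t', W'.length = 2 * V.length + W.length → t' ≤ t + 10 * V.length →
      Φ (mk F U [] ((l : ℝ) :: L) J [] W' P B [] R [] s, t')
        ≤ if AllInt W' then β + e else β) →
    wp Φ (iter (fun y => exec DEC1 (y.1, y.2 + 1)) V.length
      (mk F U [] ((l : ℝ) :: L) J V W P B [] R [] s, t))
      ≤ if AllInt V ∧ AllInt W then β + e else β := by
  intro V
  induction V with
  | nil =>
    intro W t h
    simp only [List.length_nil, iter, wp, allInt_nil, true_and]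
    exact h W t (by simp) (by simp)
  | cons v V ih =>
    intro W t h
    simp only [List.length_cons, iter, DEC1, exec, G.bind, wp, Ex.val, Ex.ops, mk_11, mk_3,
      mk_5, mk_6, upd_11, upd_5, upd_6, List.headD_cons, List.tail_cons]
    refine iSup_le fun _ => iSup_le fun a => ?_
    have h2 := ih ((v - (l : ℝ) * a) :: a :: W) (t + 10) (fun W' t'' hW' ht'' => by
      refine h W' t'' ?_ ?_
      · rw [hW']; simp only [List.length_cons]; ring
      · simp only [List.length_cons]; omega)
    simp only [DEC1, exec, G.bind] at h2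
    refine h2.trans ?_
    by_cases h5 : AllInt V ∧ AllInt ((v - (l : ℝ) * a) :: a :: W)
    · rw [if_pos h5]
      rw [allInt_cons, allInt_cons] at h5
      obtain ⟨hV, ⟨b, hb⟩, ⟨a', ha⟩, hW⟩ := h5
      rw [if_pos]
      refine ⟨allInt_cons.2 ⟨⟨b + l * a', ?_⟩, hV⟩, hW⟩
      push_cast
      rw [hb, ha]; ring
    · rw [if_neg h5]
      split_ifs
      · exact le_self_add
      · exact le_rfl

end Pool.Agent.IPR
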