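import Pool.Agent.IPR.Prog

namespace Pool.Agent.IPR

set_option linter.unusedSimpArgs false

open Classical in
theorem exec_read1 (q : ℕ) (F U T L : List ℝ) (J B y l : ℝ) (s : St) (t : ℕ) :
    ∃ t' ≤ t + 12, exec (READ1 q) (mk F U (y :: T) (l :: L) [J] [] [] [] [B] [] [] [] s, t)
      = .ret (mk F U T (l * l :: l :: L) [if y = 1 then 4 * (J * J) else J * J] [] [] []
          [if y = 0 ∨ y = 1 then B else 0] [] [] [] (Function.update s q (y :: s q)), t') := by
  by_cases h1 : y = 1
  · subst h1
    simp only [READ1, exec, G.bind, Ex.val, Ex.ops, mk_2, mk_3, mk_4, mk_8, upd_2, upd_3, upd_4,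
      upd_8, upd_add, mk_add, List.headD_cons, List.tail_cons, sub_self, le_refl, if_true,
      List.tail_nil, or_true]
    exact ⟨_, by omega, rfl⟩
  · by_cases h0 : y = 0
    · subst h0
      have e1 : ¬ (0 : ℝ) ≤ 0 - 1 := by norm_num
      simp only [READ1, exec, G.bind, Ex.val, Ex.ops, mk_2, mk_3, mk_4, mk_8, upd_2, upd_3,
        upd_4, upd_8, upd_add, mk_add, List.headD_cons, List.tail_cons, sub_self, le_refl,
        if_true, List.tail_nil, true_or, e1, if_false, h1]
      exact ⟨_, by omega, rfl⟩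
    · have hor : ¬ (y = 0 ∨ y = 1) := by tauto
      by_cases h2 : 0 ≤ y - 1
      · have h3 : ¬ (0 : ℝ) ≤ 1 - y := by
          intro h3
          exact h1 (by linarith)
        simp only [READ1, exec, G.bind, Ex.val, Ex.ops, mk_2, mk_3, mk_4, mk_8, upd_2, upd_3,
          upd_4, upd_8, upd_add, mk_add, List.headD_cons, List.tail_cons, h2, h3, if_true,
          List.tail_nil, if_false, h1, h0, or_self]
        exact ⟨_, by omega, rfl⟩
      · by_cases h4 : 0 ≤ y
        · have h5 : ¬ (0 : ℝ) ≤ 0 - y := by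
            intro h3
            exact h0 (by linarith)
          simp only [READ1, exec, G.bind, Ex.val, Ex.ops, mk_2, mk_3, mk_4, mk_8, upd_2, upd_3,
            upd_4, upd_8, upd_add, mk_add, List.headD_cons, List.tail_cons, h2, h4, h5, if_true,
            List.tail_nil, if_false, h1, h0, or_self]
          exact ⟨_, by omega, rfl⟩
        · simp only [READ1, exec, G.bind, Ex.val, Ex.ops, mk_2, mk_3, mk_4, mk_8, upd_2, upd_3,
            upd_4, upd_8, upd_add, mk_add, List.headD_cons, List.tail_cons, h2, h4,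
            List.tail_nil, if_false, h1, h0, or_self]
          exact ⟨_, by omega, rfl⟩

/-- The ladder `2 ^ 2 ^ (k - 1), …, 4, 2`. -/
noncomputable def lad : ℕ → List ℝ
  | 0 => []
  | k + 1 => 2 ^ 2 ^ k :: lad k

theorem lad_length (k : ℕ) : (lad k).length = k := by
  induction k with
  | zero => rfl
  | succ k ih => simp [lad, ih]

open Classical in
noncomputable def bfl (w : List ℝ) : ℝ := if IsB w then 1 else 0

theorem bfl_cons (y : ℝ) (w : List ℝ) [Decidable (y = 0 ∨ y = 1)] :
    bfl (y :: w) = if y = 0 ∨ y = 1 then bfl w else 0 := by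
  unfold bfl
  by_cases h : y = 0 ∨ y = 1
  · have : IsB (y :: w) ↔ IsB w := by
      simp [IsB, h]
    rw [if_pos h]
    by_cases hw : IsB w
    · rw [if_pos hw, if_pos (this.2 hw)]
    · rw [if_neg hw, if_neg fun h' => hw (this.1 h')]
  · have : ¬ IsB (y :: w) := by
      intro h'
      exact h (h' y List.mem_cons_self)
    rw [if_neg h, if_neg this]

theorem exec_readloop (q : ℕ) (F U : List ℝ) : ∀ (T w : List ℝ) (s : St) (t : ℕ), s q = w →
    ∃ t' ≤ t + 13 * T.length,
      iter (fun y => exec (READ1 q) (y.1, y.2 + 1)) T.length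
        (mk F U T (lad (w.length + 2)) [4 ^ rcode w] [] [] [] [bfl w] [] [] [] s, t)
      = .ret (mk F U [] (lad ((T.reverse ++ w).length + 2)) [4 ^ rcode (T.reverse ++ w)]
          [] [] [] [bfl (T.reverse ++ w)] [] [] [] (Function.update s q (T.reverse ++ w)), t')
    := by
  classical
  intro T
  induction T with
  | nil =>
    intro w s t h
    refine ⟨t, by omega, ?_⟩
    simp only [List.length_nil, iter, List.reverse_nil, List.nil_append]
    rw [← h, Function.update_eq_self]
  | cons y T ih =>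
    intro w s t h
    simp only [List.length_cons, iter]
    obtain ⟨t1, ht1, h1⟩ := exec_read1 q F U T (lad (w.length + 1)) (4 ^ rcode w) (bfl w) y
      (2 ^ 2 ^ (w.length + 1)) s (t + 1)
    have hl : lad (w.length + 2) = 2 ^ 2 ^ (w.length + 1) :: lad (w.length + 1) := rfl
    rw [hl, h1]
    simp only [G.bind]
    obtain ⟨t2, ht2, h2⟩ := ih (y :: w) (Function.update s q (y :: s q)) t1 (by simp [h])
    refine ⟨t2, by omega, ?_⟩
    have e1 : (2 : ℝ) ^ 2 ^ (w.length + 1) * 2 ^ 2 ^ (w.length + 1)
        = 2 ^ 2 ^ (w.length + 1 + 1) := by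
      rw [← pow_add]; congr 1; rw [pow_succ 2 (w.length + 1)]; ring
    have e2 : lad ((y :: w).length + 2) = 2 ^ 2 ^ (w.length + 1 + 1) ::
        2 ^ 2 ^ (w.length + 1) :: lad (w.length + 1) := rfl
    have e3 : (if y = 1 then 4 * ((4 : ℝ) ^ rcode w * 4 ^ rcode w)
        else 4 ^ rcode w * 4 ^ rcode w) = 4 ^ rcode (y :: w) := by
      rw [rcode_cons]
      split_ifs
      · rw [pow_add, pow_mul', sq]; ring
      · rw [add_zero, pow_mul', sq]
    rw [e1, e3, ← bfl_cons y w]
    rw [e2] at h2
    rw [h2]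
    simp

theorem exec_read (q : ℕ) (F U : List ℝ) (s : St) (t : ℕ) :
    ∃ t' ≤ t + 16 * (s q).length + 20,
      exec (READ q) (mk F U [] [] [] [] [] [] [] [] [] [] s, t)
      = .ret (mk F U [] (lad ((s q).length + 2)) [4 ^ rcode (s q)] [] [] [] [bfl (s q)] [] [] []
          s, t') := by
  have hm := exec_move (q + 12) 2 (by omega) (mk F U [] [] [] [] [] [] [] [] [] [] s) t
  simp only [mk_add, mk_2, upd_2, upd_add, List.append_nil] at hm
  simp only [READ, exec] at hm ⊢
  rw [hm]
  simp only [G.bind, Ex.val, Ex.ops, mk_2, mk_3, mk_4, mk_8, upd_2, upd_3, upd_4, upd_8]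
  obtain ⟨t', ht', h⟩ := exec_readloop q F U (s q).reverse [] (Function.update s q [])
    (t + 1 + 3 * (s q).length + 0 + 1 + 0 + 1 + 0 + 1 + 0 + 1 + 1) (by simp)
  have e0 : lad (([] : List ℝ).length + 2) = [4, 2] := by
    simp only [lad, List.length_nil]; norm_num
  have e1 : (4 : ℝ) ^ rcode [] = 4 := by simp [rcode]
  have e2 : bfl [] = 1 := by simp [bfl, IsB]
  rw [e0, e1, e2] at h
  simp only [List.reverse_reverse, List.append_nil, Function.update_idem,
    Function.update_eq_self, List.length_reverse] at h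
  refine ⟨t', ?_, ?_⟩
  · rw [List.length_reverse] at ht'
    omega
  · rw [List.length_reverse]
    exact h

end Pool.Agent.IPR
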