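import Pool.Agent.IPR.Compl2

set_option linter.unusedSimpArgs false

namespace Pool.Agent.IPR

open scoped ENNReal

/-- Shift of the stacks of an expression. -/
def sh : Ex → Ex
  | .c a => .c a
  | .t i => .t (i + 12)
  | .add e f => .add (sh e) (sh f)
  | .sub e f => .sub (sh e) (sh f)
  | .mul e f => .mul (sh e) (sh f)

theorem sh_val (e : Ex) (f : ℝ) (U : List ℝ) (s : St) : (sh e).val (enc f U s) = e.val s := by
  induction e with
  | c a => rfl
  | t i => simp [sh, Ex.val, enc]
  | add e f ih1 ih2 => simp only [sh, Ex.val, ih1, ih2]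
  | sub e f ih1 ih2 => simp only [sh, Ex.val, ih1, ih2]
  | mul e f ih1 ih2 => simp only [sh, Ex.val, ih1, ih2]

theorem sh_ops (e : Ex) : (sh e).ops = e.ops := by
  induction e with
  | c a => rfl
  | t i => rfl
  | add e f ih1 ih2 => simp only [sh, Ex.ops, ih1, ih2]
  | sub e f ih1 ih2 => simp only [sh, Ex.ops, ih1, ih2]
  | mul e f ih1 ih2 => simp only [sh, Ex.ops, ih1, ih2]

/-- Translation: queries are replaced by the protocol. -/
noncomputable def tr (c : ℝ) : Cmd → Cmd
  | .skip => .skip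
  | .push i e => .push (i + 12) (sh e)
  | .set i e => .set (i + 12) (sh e)
  | .pop i => .pop (i + 12)
  | .flip i => .flip (i + 12)
  | .ask i e => .seq (.ask 11 (.c (-1))) (.seq (.pop 11) (.ask (i + 12) (sh e)))
  | .qry i j => VER c i j
  | .seq C D => .seq (tr c C) (tr c D)
  | .ite e C D => .ite (sh e) (tr c C) (tr c D)
  | .loop i C => .loop (i + 12) (tr c C)

theorem enc_app (f : ℝ) (U : List ℝ) (s : St) (i : ℕ) : enc f U s (i + 12) = s i := rfl

theorem enc_upd (f : ℝ) (U : List ℝ) (s : St) (i : ℕ) (l : List ℝ) :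
    Function.update (enc f U s) (i + 12) l = enc f U (Function.update s i l) := by
  simp [enc]

theorem exec_ask_tr (c f : ℝ) (U : List ℝ) (s : St) (i : ℕ) (e : Ex) (t : ℕ) :
    exec (tr c (.ask i e)) (enc f U s, t) = .ask (-1) fun _ => .ask (e.val s) fun y =>
      .ret (enc f U (Function.update s i (y :: s i)), t + e.ops + 3) := by
  simp only [tr, exec, G.bind, Ex.val, Ex.ops, enc, mk_11, upd_11, List.tail_cons, mk_add,
    upd_add]
  have h1 : (sh e).val (mk [f] U [] [] [] [] [] [] [] [] [] [] s) = e.val s := sh_val e f U s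
  rw [h1, sh_ops]
  congr 1
  funext _
  congr 1
  funext y
  congr 2
  ring

theorem half_pow_bound (u k : ℕ) :
    ((k + 2 : ℕ) : ℝ≥0∞) * (1 / 2 ^ (u + k)) ≤ 2 / 2 ^ u := by
  have h1 : ∀ k : ℕ, k + 2 ≤ 2 * 2 ^ k := by
    intro k
    induction k with
    | zero => norm_num
    | succ k ih => rw [pow_succ]; omega
  have h2 : ((k + 2 : ℕ) : ℝ≥0∞) ≤ 2 * 2 ^ k := by exact_mod_cast h1 k
  calc ((k + 2 : ℕ) : ℝ≥0∞) * (1 / 2 ^ (u + k)) ≤ (2 * 2 ^ k) * (1 / 2 ^ (u + k)) :=
        mul_le_mul_left h2 _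
    _ = 2 / 2 ^ u := by
      rw [pow_add, one_div, ENNReal.mul_inv (by simp) (by simp), ENNReal.div_eq_inv_mul]
      have h3 : (2 : ℝ≥0∞) ^ k * (2 ^ k)⁻¹ = 1 := ENNReal.mul_inv_cancel (by simp) (by simp)
      calc (2 : ℝ≥0∞) * 2 ^ k * ((2 ^ u)⁻¹ * (2 ^ k)⁻¹)
          = (2 ^ u)⁻¹ * 2 * (2 ^ k * (2 ^ k)⁻¹) := by ring
        _ = _ := by rw [h3, mul_one]

/-- Shape of the outcomes of the protocol. -/
theorem all_ver (A : Set (List Bool)) (q j : ℕ) (f : ℝ) (U : List ℝ) (s : St) (t : ℕ) :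
    (exec (VER (cst A) q j) (enc f U s, t)).all fun y => ∃ f' b, (f' = f ∨ f' = 0) ∧
      y.1 = enc f' U (Function.update s j (bit b :: s j)) ∧
      y.2 ≤ t + verT (U.length + (s q).length) (s q).length := by
  classical
  apply all_of_wp_eq_zero
  have := wp_ver A q j f U s t (fun y => if (∃ f' b, (f' = f ∨ f' = 0) ∧
      y.1 = enc f' U (Function.update s j (bit b :: s j)) ∧
      y.2 ≤ t + verT (U.length + (s q).length) (s q).length) then 0 else 1) 0 0 ?_ ?_ ?_
  · simpa using this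
  · intro f' b t' hf ht
    rw [if_pos ⟨f', b, hf, rfl, ht⟩]
    simp
  · intro b t' ht
    rw [if_pos ⟨0, b, Or.inr rfl, rfl, ht⟩]
  · intro b t' _ ht
    rw [if_pos ⟨f, b, Or.inl rfl, rfl, ht⟩]

/-- Outcomes of translated programs keep their shape. -/
theorem shape (A : Set (List Bool)) (U : List ℝ) : ∀ (C : Cmd) (s : St) (f : ℝ) (t : ℕ),
    (exec (tr (cst A) C) (enc f U s, t)).all fun y => ∃ f' s', (f' = f ∨ f' = 0) ∧
      y.1 = enc f' U s' := by
  intro C
  induction C with
  | skip => intro s f t; exact ⟨f, s, Or.inl rfl, rfl⟩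
  | push i e =>
    intro s f t
    simp only [tr, exec, enc_app, enc_upd, G.all]
    exact ⟨f, _, Or.inl rfl, rfl⟩
  | set i e =>
    intro s f t
    simp only [tr, exec, enc_app, enc_upd, G.all]
    exact ⟨f, _, Or.inl rfl, rfl⟩
  | pop i =>
    intro s f t
    simp only [tr, exec, enc_app, enc_upd, G.all]
    exact ⟨f, _, Or.inl rfl, rfl⟩
  | flip i =>
    intro s f t
    simp only [tr, exec, enc_app, enc_upd, G.all]
    exact fun b => ⟨f, _, Or.inl rfl, rfl⟩
  | ask i e =>
    intro s f t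
    rw [exec_ask_tr]
    exact fun _ y => ⟨f, _, Or.inl rfl, rfl⟩
  | qry i j =>
    intro s f t
    refine all_mono ?_ (all_ver A i j f U s t)
    rintro y ⟨f', b, h1, h2, -⟩
    exact ⟨f', _, h1, h2⟩
  | seq C D ihC ihD =>
    intro s f t
    simp only [tr, exec]
    rw [all_bind]
    refine all_mono ?_ (ihC s f t)
    rintro ⟨y1, y2⟩ ⟨f', s', h1, h2⟩
    simp only at h2
    subst h2
    refine all_mono ?_ (ihD s' f' y2)
    rintro y ⟨f'', s'', h3, h4⟩
    refine ⟨f'', s'', ?_, h4⟩
    rcases h3 with h3 | h3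
    · rw [h3]; exact h1
    · exact Or.inr h3
  | ite e C D ihC ihD =>
    intro s f t
    simp only [tr, exec]
    split_ifs
    · exact ihC s f _
    · exact ihD s f _
  | loop i C ih =>
    intro s f t
    simp only [tr, exec, enc_app]
    have key : ∀ (n : ℕ) (s : St) (f : ℝ) (t : ℕ),
        (iter (fun y => exec (tr (cst A) C) (y.1, y.2 + 1)) n (enc f U s, t)).all
          fun y => ∃ f' s', (f' = f ∨ f' = 0) ∧ y.1 = enc f' U s' := by
      intro n
      induction n with
      | zero => intro s f t; exact ⟨f, s, Or.inl rfl, rfl⟩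
      | succ n ihn =>
        intro s f t
        simp only [iter]
        rw [all_bind]
        refine all_mono ?_ (ih s f (t + 1))
        rintro ⟨y1, y2⟩ ⟨f', s', h1, h2⟩
        simp only at h2
        subst h2
        refine all_mono ?_ (ihn s' f' y2)
        rintro y ⟨f'', s'', h3, h4⟩
        refine ⟨f'', s'', ?_, h4⟩
        rcases h3 with h3 | h3
        · rw [h3]; exact h1
        · exact Or.inr h3
    exact key _ s f _

end Pool.Agent.IPR
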