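import Pool.Agent.IPR.Sim

set_option linter.unusedSimpArgs false

namespace Pool.Agent.IPR

open scoped ENNReal

theorem levT_mono {m m' : ℕ} (h : m ≤ m') : levT m ≤ levT m' := by
  unfold levT; gcongr

theorem verT_mono {m m' k k' : ℕ} (h : m ≤ m') (h' : k ≤ k') : verT m k ≤ verT m' k' := by
  have := levT_mono h
  unfold verT; gcongr

/-- Sizes are bounded by time. -/
def Sz (N : ℕ) (s : St) (t : ℕ) : Prop := ∀ i, (s i).length ≤ N + t

theorem Sz.push {N : ℕ} {s : St} {t t' : ℕ} (h : Sz N s t) (ht : t + 1 ≤ t') (i : ℕ) (x : ℝ) :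
    Sz N (Function.update s i (x :: s i)) t' := by
  intro j
  by_cases hj : j = i
  · subst hj
    rw [Function.update_self, List.length_cons]
    have := h j
    omega
  · rw [Function.update_of_ne hj]
    have := h j
    omega

theorem Sz.set {N : ℕ} {s : St} {t t' : ℕ} (h : Sz N s t) (ht : t + 1 ≤ t') (i : ℕ) (x : ℝ) :
    Sz N (Function.update s i (x :: (s i).tail)) t' := by
  intro j
  by_cases hj : j = i
  · subst hj
    rw [Function.update_self, List.length_cons, List.length_tail]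
    have := h j
    omega
  · rw [Function.update_of_ne hj]
    have := h j
    omega

theorem Sz.pop {N : ℕ} {s : St} {t t' : ℕ} (h : Sz N s t) (ht : t ≤ t') (i : ℕ) :
    Sz N (Function.update s i (s i).tail) t' := by
  intro j
  by_cases hj : j = i
  · subst hj
    rw [Function.update_self, List.length_tail]
    have := h j
    omega
  · rw [Function.update_of_ne hj]
    have := h j
    omega

theorem Sz.mono {N : ℕ} {s : St} {t t' : ℕ} (h : Sz N s t) (ht : t ≤ t') : Sz N s t' :=
  fun j => (h j).trans (by omega)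

theorem all_exists {α : Type} {P : α → Prop} {t : G α} (h : t.all P) : ∃ a, P a := by
  induction t with
  | ret a => exact ⟨a, h⟩
  | flip k ih => exact ih false (h false)
  | ask w k ih => exact ih 0 (h 0)
  | qry w k ih => exact ih false (h false)

theorem size (N : ℕ) : ∀ (C : Cmd) (s : St) (t : ℕ),
    (exec C (s, t)).all fun y => t ≤ y.2 ∧ (Sz N s t → Sz N y.1 y.2) := by
  intro C
  induction C with
  | skip => intro s t; exact ⟨le_rfl, id⟩
  | push i e =>
    intro s t
    simp only [exec, G.all]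
    exact ⟨by omega, fun h => h.push (by omega) _ _⟩
  | set i e =>
    intro s t
    simp only [exec, G.all]
    exact ⟨by omega, fun h => h.set (by omega) _ _⟩
  | pop i =>
    intro s t
    simp only [exec, G.all]
    exact ⟨by omega, fun h => h.pop (by omega) _⟩
  | flip i =>
    intro s t
    simp only [exec, G.all]
    exact fun b => ⟨by omega, fun h => h.push (by omega) _ _⟩
  | ask i e =>
    intro s t
    simp only [exec, G.all]
    exact fun b => ⟨by omega, fun h => h.push (by omega) _ _⟩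
  | qry i j =>
    intro s t
    simp only [exec, G.all]
    exact fun b => ⟨by omega, fun h => h.push (by omega) _ _⟩
  | seq C D ihC ihD =>
    intro s t
    simp only [exec]
    rw [all_bind]
    refine all_mono ?_ (ihC s t)
    rintro ⟨s1, t1⟩ ⟨h1, h2⟩
    refine all_mono ?_ (ihD s1 t1)
    rintro ⟨s2, t2⟩ ⟨h3, h4⟩
    exact ⟨h1.trans h3, fun h => h4 (h2 h)⟩
  | ite e C D ihC ihD =>
    intro s t
    simp only [exec]
    split_ifs
    · refine all_mono ?_ (ihC s (t + e.ops + 1))
      rintro ⟨s1, t1⟩ ⟨h1, h2⟩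
      exact ⟨by simp only at h1 ⊢; omega, fun h => h2 (h.mono (by omega))⟩
    · refine all_mono ?_ (ihD s (t + e.ops + 1))
      rintro ⟨s1, t1⟩ ⟨h1, h2⟩
      exact ⟨by simp only at h1 ⊢; omega, fun h => h2 (h.mono (by omega))⟩
  | loop i C ih =>
    intro s t
    simp only [exec]
    have key : ∀ (n : ℕ) (s : St) (t : ℕ),
        (iter (fun y => exec C (y.1, y.2 + 1)) n (s, t)).all
          fun y => t ≤ y.2 ∧ (Sz N s t → Sz N y.1 y.2) := by
      intro n
      induction n with
      | zero => intro s t; exact ⟨le_rfl, id⟩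
      | succ n ihn =>
        intro s t
        simp only [iter]
        rw [all_bind]
        refine all_mono ?_ (ih s (t + 1))
        rintro ⟨s1, t1⟩ ⟨h1, h2⟩
        refine all_mono ?_ (ihn s1 t1)
        rintro ⟨s2, t2⟩ ⟨h3, h4⟩
        exact ⟨by simp only at h1 h3 ⊢; omega, fun h => h4 (h2 (h.mono (by omega)))⟩
    refine all_mono ?_ (key _ s (t + 1))
    rintro ⟨s1, t1⟩ ⟨h1, h2⟩
    exact ⟨by simp only at h1 ⊢; omega, fun h => h2 (h.mono (by omega))⟩

/-- The intermediate time is bounded by the final time. -/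
theorem time_le {T : ℕ} {C : Cmd} {x : St × ℕ} {Q : St × ℕ → Prop}
    (h : (exec C x).all fun y => y.2 ≤ T ∧ Q y) : x.2 ≤ T := by
  obtain ⟨s, t⟩ := x
  obtain ⟨y, h1, h2⟩ := all_exists (all_and h (size 0 C s t))
  exact h2.1.trans h1.1

theorem time_le_iter {T : ℕ} {C : Cmd} {Q : St × ℕ → Prop} : ∀ {n : ℕ} {x : St × ℕ},
    (iter (fun y => exec C (y.1, y.2 + 1)) n x).all (fun y => y.2 ≤ T ∧ Q y) → x.2 ≤ T := by
  intro n
  induction n with
  | zero => intro x h; exact h.1
  | succ n ih =>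
    intro x h
    simp only [iter] at h
    rw [all_bind] at h
    have h2 : (exec C (x.1, x.2 + 1)).all fun y => y.2 ≤ T ∧ True :=
      all_mono (fun a ha => ⟨ih ha, trivial⟩) h
    have := time_le h2
    simp only at this
    omega

/-- Time of the simulation. -/
theorem sim_time (A : Set (List Bool)) (U : List ℝ) (N T τ : ℕ) (h3 : 3 ≤ τ)
    (hτ : verT (U.length + (N + T)) (N + T) ≤ τ) : ∀ (C : Cmd) (s : St) (f : ℝ) (t t' : ℕ)
    (Q : St × ℕ → Prop), Sz N s t →
    (exec C (s, t)).all (fun y => y.2 ≤ T ∧ Q y) →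
    (exec (tr (cst A) C) (enc f U s, t')).all fun y => ∃ f' s1 t1, y.1 = enc f' U s1 ∧
      y.2 + τ * t ≤ t' + τ * t1 ∧ t1 ≤ T ∧ Sz N s1 t1 ∧ Q (s1, t1) := by
  intro C
  induction C with
  | skip => intro s f t t' Q hs hQ; exact ⟨f, s, t, rfl, le_rfl, hQ.1, hs, hQ.2⟩
  | push i e =>
    intro s f t t' Q hs hQ
    simp only [tr, exec, enc_app, enc_upd, G.all, sh_val, sh_ops] at hQ ⊢
    refine ⟨f, _, _, rfl, ?_, hQ.1, hs.push (by omega) _ _, hQ.2⟩
    have : (e.ops + 1) ≤ τ * (e.ops + 1) := Nat.le_mul_of_pos_left _ (by omega)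
    rw [show t + e.ops + 1 = t + (e.ops + 1) by ring, mul_add]
    omega
  | set i e =>
    intro s f t t' Q hs hQ
    simp only [tr, exec, enc_app, enc_upd, G.all, sh_val, sh_ops] at hQ ⊢
    refine ⟨f, _, _, rfl, ?_, hQ.1, hs.set (by omega) _ _, hQ.2⟩
    have : (e.ops + 1) ≤ τ * (e.ops + 1) := Nat.le_mul_of_pos_left _ (by omega)
    rw [show t + e.ops + 1 = t + (e.ops + 1) by ring, mul_add]
    omega
  | pop i =>
    intro s f t t' Q hs hQ
    simp only [tr, exec, enc_app, enc_upd, G.all] at hQ ⊢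
    refine ⟨f, _, _, rfl, ?_, hQ.1, hs.pop (by omega) _, hQ.2⟩
    rw [mul_add]
    omega
  | flip i =>
    intro s f t t' Q hs hQ
    simp only [tr, exec, enc_app, enc_upd, G.all] at hQ ⊢
    intro b
    refine ⟨f, _, _, rfl, ?_, (hQ b).1, hs.push (by omega) _ _, (hQ b).2⟩
    rw [mul_add]
    omega
  | ask i e =>
    intro s f t t' Q hs hQ
    rw [exec_ask_tr]
    simp only [exec, G.all] at hQ ⊢
    intro _ y
    refine ⟨f, _, _, rfl, ?_, (hQ y).1, hs.push (by omega) _ _, (hQ y).2⟩
    have : (e.ops + 3) ≤ τ * (e.ops + 1) := by nlinarith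
    rw [show t + e.ops + 1 = t + (e.ops + 1) by ring, mul_add]
    omega
  | qry i j =>
    intro s f t t' Q hs hQ
    simp only [exec, G.all] at hQ
    refine all_mono ?_ (all_ver A i j f U s t')
    rintro y ⟨f', b, h1, h2, h4⟩
    refine ⟨f', _, t + 1, h2, ?_, (hQ b).1, hs.push (by omega) _ _, (hQ b).2⟩
    have h5 : (s i).length ≤ N + T := (hs i).trans (by have := (hQ b).1; omega)
    have h6 : verT (U.length + (s i).length) (s i).length ≤ τ :=
      (verT_mono (by omega) h5).trans hτ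
    rw [mul_add]
    omega
  | seq C D ihC ihD =>
    intro s f t t' Q hs hQ
    simp only [tr, exec] at hQ ⊢
    rw [all_bind] at hQ ⊢
    have h1 := ihC s f t t' (fun y => (exec D y).all (fun z => z.2 ≤ T ∧ Q z)) hs
      (all_mono (fun a ha => ⟨time_le ha, ha⟩) hQ)
    refine all_mono ?_ h1
    rintro ⟨y1, y2⟩ ⟨f', s1, t1, e1, e2, e5, e3, e4⟩
    simp only at e1 e2
    subst e1
    refine all_mono ?_ (ihD s1 f' t1 y2 Q e3 e4)
    rintro z ⟨f'', s2, t2, g1, g2, g3⟩
    exact ⟨f'', s2, t2, g1, by omega, g3⟩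
  | ite e C D ihC ihD =>
    intro s f t t' Q hs hQ
    have h7 : (e.ops + 1) ≤ τ * (e.ops + 1) := Nat.le_mul_of_pos_left _ (by omega)
    have h8 : τ * (t + e.ops + 1) = τ * t + τ * (e.ops + 1) := by ring
    simp only [tr, exec, sh_val, sh_ops] at hQ ⊢
    by_cases he : 0 ≤ e.val s
    · rw [if_pos he] at hQ ⊢
      refine all_mono ?_ (ihC s f (t + e.ops + 1) (t' + e.ops + 1) Q (hs.mono (by omega)) hQ)
      rintro z ⟨f'', s2, t2, g1, g2, g3⟩
      exact ⟨f'', s2, t2, g1, by omega, g3⟩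
    · rw [if_neg he] at hQ ⊢
      refine all_mono ?_ (ihD s f (t + e.ops + 1) (t' + e.ops + 1) Q (hs.mono (by omega)) hQ)
      rintro z ⟨f'', s2, t2, g1, g2, g3⟩
      exact ⟨f'', s2, t2, g1, by omega, g3⟩
  | loop i C ih =>
    intro s f t t' Q hs hQ
    simp only [tr, exec, enc_app] at hQ ⊢
    have key : ∀ (n : ℕ) (s : St) (f : ℝ) (t t' : ℕ), Sz N s t →
        (iter (fun y => exec C (y.1, y.2 + 1)) n (s, t)).all (fun y => y.2 ≤ T ∧ Q y) →
        (iter (fun y => exec (tr (cst A) C) (y.1, y.2 + 1)) n (enc f U s, t')).all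
          fun y => ∃ f' s1 t1, y.1 = enc f' U s1 ∧
            y.2 + τ * t ≤ t' + τ * t1 ∧ t1 ≤ T ∧ Sz N s1 t1 ∧ Q (s1, t1) := by
      intro n
      induction n with
      | zero => intro s f t t' hs hQ; exact ⟨f, s, t, rfl, le_rfl, hQ.1, hs, hQ.2⟩
      | succ n ihn =>
        intro s f t t' hs hQ
        simp only [iter] at hQ ⊢
        rw [all_bind] at hQ ⊢
        have h1 := ih s f (t + 1) (t' + 1)
          (fun y => (iter (fun y => exec C (y.1, y.2 + 1)) n y).all
            (fun z => z.2 ≤ T ∧ Q z)) (hs.mono (by omega))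
          (all_mono (fun a ha => ⟨time_le_iter ha, ha⟩) hQ)
        refine all_mono ?_ h1
        rintro ⟨y1, y2⟩ ⟨f', s1, t1, e1, e2, e5, e3, e4⟩
        simp only at e1 e2
        subst e1
        refine all_mono ?_ (ihn s1 f' t1 y2 e3 e4)
        rintro z ⟨f'', s2, t2, g1, g2, g3⟩
        refine ⟨f'', s2, t2, g1, ?_, g3⟩
        rw [mul_add] at e2
        omega
    refine all_mono ?_ (key _ s f (t + 1) (t' + 1) (hs.mono (by omega)) hQ)
    rintro z ⟨f'', s2, t2, g1, g2, g3⟩
    refine ⟨f'', s2, t2, g1, ?_, g3⟩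
    rw [mul_add] at g2
    omega

end Pool.Agent.IPR
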