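import Pool.Agent.IPR.Sim2

set_option linter.unusedSimpArgs false

namespace Pool.Agent.IPR

open scoped ENNReal

theorem allA_exists {α : Type} {A : Set (List Bool)} {P : α → Prop} {t : G α}
    (h : allA A P t) : ∃ a, P a := by
  classical
  induction t with
  | ret a => exact ⟨a, h⟩
  | flip k ih => exact ih false (h false)
  | ask w k ih => exact ih 0 (h 0)
  | qry w k ih => exact ih (decide (w ∈ emb A)) (h _ (by simp))

theorem wp_zero_of_flag (A : Set (List Bool)) (U : List ℝ) (C : Cmd) (s : St) (t : ℕ)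
    (Φ : St × ℕ → ℝ≥0∞) (h0 : ∀ s1 t1, Φ (enc 0 U s1, t1) = 0) :
    wp Φ (exec (tr (cst A) C) (enc 0 U s, t)) = 0 := by
  have : wp Φ (exec (tr (cst A) C) (enc 0 U s, t)) ≤ 0 := by
    apply wp_le_of_all
    refine all_mono ?_ (shape A U C s 0 t)
    rintro ⟨y1, y2⟩ ⟨f', s', h1, h2⟩
    simp only at h2
    subst h2
    have : f' = 0 := by tauto
    rw [this, h0]
  exact le_antisymm this (zero_le)

theorem wp_le_one {α : Type} (Φ : α → ℝ≥0∞) (h1 : ∀ x, Φ x ≤ 1) (t : G α) : wp Φ t ≤ 1 := by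
  induction t with
  | ret a => exact h1 a
  | flip k ih => exact half_le (ih false) (ih true)
  | ask w k ih => exact iSup_le ih
  | qry w k ih => exact iSup_le ih

/-- Soundness of the simulation. -/
theorem sim_sound (A : Set (List Bool)) (U : List ℝ) (T : ℕ) (ε : ℝ≥0∞)
    (hε : 2 / 2 ^ U.length ≤ ε) : ∀ (C : Cmd), C.ok true → ∀ (s : St) (f : ℝ) (t t' : ℕ)
    (Φ : St × ℕ → ℝ≥0∞), (∀ x, Φ x ≤ 1) → (∀ s1 t1, Φ (enc 0 U s1, t1) = 0) →
    allA A (fun y => y.2 ≤ T ∧ ∀ t'', Φ (enc f U y.1, t'') ≤ ε * (T - y.2 : ℕ))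
      (exec C (s, t)) →
    t ≤ T ∧ wp Φ (exec (tr (cst A) C) (enc f U s, t')) ≤ ε * (T - t : ℕ) := by
  have hm : ∀ {t t1 : ℕ} {x : ℝ≥0∞}, x ≤ ε * (T - t1 : ℕ) → t ≤ t1 → x ≤ ε * (T - t : ℕ) := by
    intro t t1 x h1 h2
    refine h1.trans (mul_le_mul_right ?_ ε)
    have : T - t1 ≤ T - t := by omega
    exact_mod_cast this
  intro C
  induction C with
  | skip =>
    intro _ s f t t' Φ h1 h0 h
    exact ⟨h.1, h.2 t'⟩
  | push i e =>
    intro _ s f t t' Φ h1 h0 h
    simp only [tr, exec, enc_app, enc_upd, allA, wp, sh_val, sh_ops] at h ⊢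
    exact ⟨by omega, hm (h.2 _) (by omega)⟩
  | set i e =>
    intro _ s f t t' Φ h1 h0 h
    simp only [tr, exec, enc_app, enc_upd, allA, wp, sh_val, sh_ops] at h ⊢
    exact ⟨by omega, hm (h.2 _) (by omega)⟩
  | pop i =>
    intro _ s f t t' Φ h1 h0 h
    simp only [tr, exec, enc_app, enc_upd, allA, wp] at h ⊢
    exact ⟨by omega, hm (h.2 _) (by omega)⟩
  | flip i => intro h; exact absurd h (by simp [Cmd.ok])
  | ask i e =>
    intro _ s f t t' Φ h1 h0 h
    rw [exec_ask_tr]
    simp only [exec, allA, wp] at h ⊢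
    refine ⟨by have := (h 0).1; omega, iSup_le fun _ => iSup_le fun y => ?_⟩
    exact hm ((h y).2 _) (by omega)
  | qry i j =>
    intro _ s f t t' Φ h1 h0 h
    simp only [exec, allA] at h
    have htT : t + 1 ≤ T := by
      classical
      exact (h (decide (s i ∈ emb A)) (by simp)).1
    refine ⟨by omega, ?_⟩
    have hv := wp_ver A i j f U s t' Φ (ε * (T - (t + 1) : ℕ)) 1 ?_ ?_ ?_
    · simp only [tr]
      refine hv.trans ?_
      have h5 := (half_pow_bound U.length (s i).length).trans hε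
      have h6 : ((T - t : ℕ) : ℝ≥0∞) = (T - (t + 1) : ℕ) + 1 := by
        rw [show T - t = (T - (t + 1)) + 1 by omega]
        push_cast
        rfl
      rw [h6, mul_add, mul_one]
      exact add_le_add_right h5 _
    · intro f' b t'' hf ht
      exact (h1 _).trans le_add_self
    · intro b t'' ht
      rw [h0]
      exact zero_le
    · intro b t'' hb ht
      exact (h b hb).2 t''
  | seq C D ihC ihD =>
    intro hok s f t t' Φ h1 h0 h
    simp only [Cmd.ok] at hok
    simp only [tr, exec] at h ⊢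
    rw [allA_bind] at h
    rw [wp_bind]
    refine ihC hok.1 s f t t' _ (fun x => wp_le_one Φ h1 _)
      (fun s1 t1 => wp_zero_of_flag A U D s1 t1 Φ h0) ?_
    refine allA_mono ?_ h
    rintro ⟨s1, t1⟩ hy
    have h7 := fun t'' => ihD hok.2 s1 f t1 t'' Φ h1 h0 hy
    exact ⟨(h7 0).1, fun t'' => (h7 t'').2⟩
  | ite e C D ihC ihD =>
    intro hok s f t t' Φ h1 h0 h
    simp only [Cmd.ok] at hok
    simp only [tr, exec, sh_val, sh_ops] at h ⊢
    by_cases he : 0 ≤ e.val s
    · rw [if_pos he] at h ⊢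
      have := ihC hok.1 s f (t + e.ops + 1) (t' + e.ops + 1) Φ h1 h0 h
      exact ⟨by omega, hm this.2 (by omega)⟩
    · rw [if_neg he] at h ⊢
      have := ihD hok.2 s f (t + e.ops + 1) (t' + e.ops + 1) Φ h1 h0 h
      exact ⟨by omega, hm this.2 (by omega)⟩
  | loop i C ih =>
    intro hok s f t t' Φ h1 h0 h
    simp only [Cmd.ok] at hok
    simp only [tr, exec, enc_app] at h ⊢
    have hz : ∀ (n : ℕ) (s1 : St) (t1 : ℕ),
        wp Φ (iter (fun y => exec (tr (cst A) C) (y.1, y.2 + 1)) n (enc 0 U s1, t1)) = 0 := by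
      intro n
      induction n with
      | zero => intro s1 t1; exact h0 s1 t1
      | succ n ihn =>
        intro s1 t1
        simp only [iter]
        rw [wp_bind]
        exact wp_zero_of_flag A U C s1 (t1 + 1) _ ihn
    have key : ∀ (n : ℕ) (s : St) (t t' : ℕ),
        allA A (fun y => y.2 ≤ T ∧ ∀ t'', Φ (enc f U y.1, t'') ≤ ε * (T - y.2 : ℕ))
          (iter (fun y => exec C (y.1, y.2 + 1)) n (s, t)) →
        t ≤ T ∧ wp Φ (iter (fun y => exec (tr (cst A) C) (y.1, y.2 + 1)) n (enc f U s, t'))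
          ≤ ε * (T - t : ℕ) := by
      intro n
      induction n with
      | zero => intro s t t' h; exact ⟨h.1, h.2 t'⟩
      | succ n ihn =>
        intro s t t' h
        simp only [iter] at h ⊢
        rw [allA_bind] at h
        rw [wp_bind]
        have := ih hok s f (t + 1) (t' + 1)
          (fun x => wp Φ (iter (fun y => exec (tr (cst A) C) (y.1, y.2 + 1)) n x))
          (fun x => wp_le_one Φ h1 _) (fun s1 t1 => hz n s1 t1) (by
            refine allA_mono ?_ h
            rintro ⟨s1, t1⟩ hy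
            have h7 := fun t'' => ihn s1 t1 t'' hy
            exact ⟨(h7 0).1, fun t'' => (h7 t'').2⟩)
        exact ⟨by omega, hm this.2 (by omega)⟩
    have := key _ s (t + 1) (t' + 1) h
    exact ⟨by omega, hm this.2 (by omega)⟩

/-- Completeness of the simulation. -/
theorem sim_compl (A : Set (List Bool)) (PA : List ℝ → ℝ) (U : List ℝ) (hU : 3 ≤ U.length)
    (f : ℝ) : ∀ (C : Cmd), C.ok true → ∀ (s : St) (t t' : ℕ) (h : List ℝ)
    (Q0 Q : St × ℕ → List ℝ → Prop),
    (∀ s1 t1 t'' h', Q0 (s1, t1) (own h') → Q (enc f U s1, t'') h') →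
    hp A PA (own h) (exec C (s, t)) Q0 →
    hp ∅ (hon PA) h (exec (tr (cst A) C) (enc f U s, t')) Q := by
  intro C
  induction C with
  | skip => intro _ s t t' h Q0 Q hQ h1; exact hQ _ _ _ _ h1
  | push i e =>
    intro _ s t t' h Q0 Q hQ h1
    simp only [tr, exec, enc_app, enc_upd, hp, sh_val, sh_ops] at h1 ⊢
    exact hQ _ _ _ _ h1
  | set i e =>
    intro _ s t t' h Q0 Q hQ h1
    simp only [tr, exec, enc_app, enc_upd, hp, sh_val, sh_ops] at h1 ⊢
    exact hQ _ _ _ _ h1
  | pop i =>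
    intro _ s t t' h Q0 Q hQ h1
    simp only [tr, exec, enc_app, enc_upd, hp] at h1 ⊢
    exact hQ _ _ _ _ h1
  | flip i => intro h; exact absurd h (by simp [Cmd.ok])
  | ask i e =>
    intro _ s t t' h Q0 Q hQ h1
    rw [exec_ask_tr]
    simp only [exec, hp] at h1 ⊢
    have e1 : hon PA (e.val s :: -1 :: h) = PA (e.val s :: own h) := by simp [hon]
    have e2 : own (e.val s :: -1 :: h) = e.val s :: own h := by simp [own]
    rw [e1]
    refine hQ _ (t + e.ops + 1) _ _ ?_
    rw [e2]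
    exact h1
  | qry i j =>
    intro _ s t t' h Q0 Q hQ h1
    simp only [exec, hp, tr] at h1 ⊢
    refine hp_ver A i j f U s t' h hU Q fun b t'' h' hb hh => ?_
    refine hQ _ (t + 1) _ _ ?_
    rw [hh]
    exact h1 b hb
  | seq C D ihC ihD =>
    intro hok s t t' h Q0 Q hQ h1
    simp only [Cmd.ok] at hok
    simp only [tr, exec] at h1 ⊢
    rw [hp_bind] at h1 ⊢
    refine ihC hok.1 s t t' h _ _ ?_ h1
    intro s1 t1 t'' h' h2
    exact ihD hok.2 s1 t1 t'' h' Q0 Q hQ h2
  | ite e C D ihC ihD =>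
    intro hok s t t' h Q0 Q hQ h1
    simp only [Cmd.ok] at hok
    simp only [tr, exec, sh_val, sh_ops] at h1 ⊢
    by_cases he : 0 ≤ e.val s
    · rw [if_pos he] at h1 ⊢
      exact ihC hok.1 s _ _ h Q0 Q hQ h1
    · rw [if_neg he] at h1 ⊢
      exact ihD hok.2 s _ _ h Q0 Q hQ h1
  | loop i C ih =>
    intro hok s t t' h Q0 Q hQ h1
    simp only [Cmd.ok] at hok
    simp only [tr, exec, enc_app] at h1 ⊢
    have key : ∀ (n : ℕ) (s : St) (t t' : ℕ) (h : List ℝ),
        hp A PA (own h) (iter (fun y => exec C (y.1, y.2 + 1)) n (s, t)) Q0 →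
        hp ∅ (hon PA) h
          (iter (fun y => exec (tr (cst A) C) (y.1, y.2 + 1)) n (enc f U s, t')) Q := by
      intro n
      induction n with
      | zero => intro s t t' h h1; exact hQ _ _ _ _ h1
      | succ n ihn =>
        intro s t t' h h1
        simp only [iter] at h1 ⊢
        rw [hp_bind] at h1 ⊢
        refine ih hok s (t + 1) (t' + 1) h _ _ ?_ h1
        intro s1 t1 t'' h' h2
        exact ihn s1 t1 t'' h' h2
    exact key _ s (t + 1) (t' + 1) h h1

end Pool.Agent.IPR
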