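import Pool.Agent.IPR.Ver

set_option linter.unusedSimpArgs false

namespace Pool.Agent.IPR

open scoped ENNReal

theorem wp_ret_eq {α : Type} {f : α → ℝ≥0∞} {t : G α} {a : α} (h : t = .ret a) :
    wp f t = f a := by rw [h]; rfl

theorem wp_ver (A : Set (List Bool)) (q j : ℕ) (f : ℝ) (U : List ℝ) (s : St) (t : ℕ)
    (Φ : St × ℕ → ℝ≥0∞) (β e : ℝ≥0∞)
    (h1 : ∀ f' b t', (f' = f ∨ f' = 0) → t' ≤ t + verT (U.length + (s q).length) (s q).length →
      Φ (enc f' U (Function.update s j (bit b :: s j)), t') ≤ β + e)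
    (h0 : ∀ b t', t' ≤ t + verT (U.length + (s q).length) (s q).length →
      Φ (enc 0 U (Function.update s j (bit b :: s j)), t') ≤ β)
    (h2 : ∀ b t', (b = true ↔ s q ∈ emb A) →
      t' ≤ t + verT (U.length + (s q).length) (s q).length →
      Φ (enc f U (Function.update s j (bit b :: s j)), t') ≤ β) :
    wp Φ (exec (VER (cst A) q j) (enc f U s, t))
      ≤ β + ((s q).length + 2 : ℕ) * (e / 2 ^ (U.length + (s q).length)) := by
  classical
  set k := (s q).length with hk
  set m := U.length + k with hm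
  obtain ⟨t1, ht1, e1⟩ := exec_read q [f] U s t
  have hfin : ∀ (J ρ g : ℝ) (V : List ℝ) (t' : ℕ), V.length ≤ m + 1 →
      t' ≤ t + ((16 * k + 20) + 16 + (1 + (k + 2) * (levT m + 1))) →
      ∃ t'' ≤ t + verT m k,
        exec (.seq (.loop 5 FIN1) (ANS j))
          (mk [g] U [] [] [J] V [] (pw (0 + 1 + (k + 2) * m)) [bfl (s q)] [] [ρ] [] s, t')
        = .ret (enc (if ∀ v ∈ V, rem v (pw (0 + 1 + (k + 2) * m)) = 0 then g else 0) U
            (Function.update s j (bit (ansb ρ (s q)) :: s j)), t'') := by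
    intro J ρ g V t' hV ht'
    obtain ⟨t2, ht2, e2⟩ := exec_tail g J ρ U V (0 + 1 + (k + 2) * m) j q s t'
    refine ⟨t2, ?_, e2⟩
    have h5 : V.length * (10 * (0 + 1 + (k + 2) * m) + 10)
        ≤ (m + 1) * (10 * (1 + (k + 2) * m) + 10) := by
      rw [zero_add]
      exact Nat.mul_le_mul_right _ hV
    unfold verT
    omega
  have hread : wp Φ (exec (VER (cst A) q j) (enc f U s, t))
      = wp (fun x => wp Φ (exec (.seq (.loop 3 (LEV1 q)) (.seq (.loop 5 FIN1) (ANS j))) x))
        (exec (MSG (cst A)) (mk [f] U [] (lad (k + 2)) [4 ^ rcode (s q)] [] [] [] [bfl (s q)]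
          [] [] [] s, t1)) := by
    rw [VER, exec.eq_8, wp_bind, enc, e1]
    simp only [wp]
    rw [exec.eq_8, wp_bind]
  rw [hread]
  refine wp_msg f (4 ^ rcode (s q)) (bfl (s q)) (cst A) U (lad (k + 2)) s t1 _ _ ?_
  intro M t' ht'
  set ρ := 4 ^ rcode (s q) * cst A - 4 * M with hρ
  set g : ℝ := if 0 ≤ ρ ∧ ρ < 4 then f else 0 with hg
  have hexp : ∀ (x : St × ℕ), wp Φ (exec (.seq (.loop 3 (LEV1 q))
      (.seq (.loop 5 FIN1) (ANS j))) x)
      = wp (fun x => wp Φ (exec (.seq (.loop 5 FIN1) (ANS j)) x))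
        (iter (fun y => exec (LEV1 q) (y.1, y.2 + 1)) (x.1 3).length (x.1, x.2 + 1)) := by
    intro x
    rw [exec.eq_8, wp_bind, exec.eq_10]
  rw [hexp]
  simp only [mk_3, lad_length]
  -- the good cases
  by_cases hgood : (g = 0) ∨ (∃ z : ℤ, (z : ℝ) = M)
  · have hl := wp_levels q [g] U [4 ^ rcode (s q)] [bfl (s q)] [ρ] s
      (fun x => wp Φ (exec (.seq (.loop 5 FIN1) (ANS j)) x)) (k + 2) 0 (t' + 1) [M] β 0
      (by simp) ?_
    · refine (hl.trans ?_).trans le_self_add
      split_ifs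
      · simp
      · simp
    · intro V' t'' hV' ht''
      rw [← hk, ← hm] at hV' ht'' ⊢
      obtain ⟨t3, ht3, e3⟩ := hfin (4 ^ rcode (s q)) ρ g V' t'' hV' (by omega)
      rw [e3]
      simp only [wp, add_zero, ite_self]
      rcases hgood with hg0 | ⟨z, hz⟩
      · rw [hg0, ite_self]
        exact h0 _ _ ht3
      · by_cases hr : ∀ v ∈ V', rem v (pw (0 + 1 + (k + 2) * m)) = 0
        · rw [if_pos hr]
          by_cases hrange : 0 ≤ ρ ∧ ρ < 4
          · rw [hg, if_pos hrange]
            refine h2 _ _ ?_ ht3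
            rw [mem_emb_iff]
            have h7 := digit_of_int (A := A) (j := rcode (s q)) (M := z)
              (by rw [hz]; exact hrange.1) (by rw [hz]; exact hrange.2)
            rw [← h7, hz]
            simp only [ansb, decide_eq_true_eq]
            tauto
          · rw [hg, if_neg hrange]
            exact h0 _ _ ht3
        · rw [if_neg hr]
          exact h0 _ _ ht3
  · push Not at hgood
    have hl := wp_levels q [g] U [4 ^ rcode (s q)] [bfl (s q)] [ρ] s
      (fun x => wp Φ (exec (.seq (.loop 5 FIN1) (ANS j)) x)) (k + 2) 0 (t' + 1) [M] β e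
      (by simp) ?_
    · rw [if_neg] at hl
      · exact hl
      · intro h5
        obtain ⟨z, hz⟩ := (allInt_cons.1 h5).1
        exact hgood.2 z hz
    · intro V' t'' hV' ht''
      rw [← hk, ← hm] at hV' ht'' ⊢
      obtain ⟨t3, ht3, e3⟩ := hfin (4 ^ rcode (s q)) ρ g V' t'' hV' (by omega)
      rw [e3]
      simp only [wp]
      by_cases hV5 : AllInt V'
      · rw [if_pos hV5]
        refine h1 _ _ _ ?_ ht3
        rw [hg]
        split_ifs <;> simp
      · rw [if_neg hV5, if_neg]
        · exact h0 _ _ ht3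
        · intro hr
          exact hV5 fun v hv => rem_int _ _ (pw_int _) (hr v hv)

end Pool.Agent.IPR
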