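import Pool.Agent.IPR.Fin

set_option linter.unusedSimpArgs false

namespace Pool.Agent.IPR

open scoped ENNReal

/-- Time bound of the protocol; `m` rows, query word of length `k`. -/
def verT (m k : ℕ) : ℕ := (16 * k + 20) + 16 + (1 + (k + 2) * (levT m + 1)) +
  (1 + (m + 1) * (10 * (1 + (k + 2) * m) + 10)) + (2 * (1 + (k + 2) * m) + 7)

/-- The bit computed by the protocol. -/
noncomputable def ansb (ρ : ℝ) (w : List ℝ) : Bool :=
  open Classical in decide (1 ≤ ρ ∧ IsB w)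

open Classical in
theorem ansb_eq (ρ : ℝ) (w : List ℝ) : (if 1 ≤ ρ then bfl w else 0) = bit (ansb ρ w) := by
  unfold ansb bfl bit
  by_cases h1 : 1 ≤ ρ
  · by_cases h2 : IsB w
    · simp [h1, h2]
    · simp [h1, h2]
  · simp [h1]

open Classical in
theorem exec_tail (f J ρ : ℝ) (U V : List ℝ) (p : ℕ) (j q : ℕ) (s : St) (t : ℕ) :
    ∃ t' ≤ t + (1 + V.length * (10 * p + 10)) + (2 * p + 7),
      exec (.seq (.loop 5 FIN1) (ANS j))
        (mk [f] U [] [] [J] V [] (pw p) [bfl (s q)] [] [ρ] [] s, t)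
      = .ret (enc (if ∀ v ∈ V, rem v (pw p) = 0 then f else 0) U
          (Function.update s j (bit (ansb ρ (s q)) :: s j)), t') := by
  obtain ⟨t1, ht1, e1⟩ := exec_finloop U [] [J] (pw p) [bfl (s q)] [ρ] s V f (t + 1)
  obtain ⟨t2, ht2, e2⟩ := exec_ans (if ∀ v ∈ V, rem v (pw p) = 0 then f else 0) J (bfl (s q)) ρ U
    (pw p) j s t1
  rw [pw_length] at ht1 ht2
  refine ⟨t2, by omega, ?_⟩
  rw [exec.eq_8]
  simp only [exec.eq_10, mk_5]
  rw [e1]
  simp only [G.bind]
  rw [e2, ansb_eq]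

open Classical in
theorem wp_msg (f J B c : ℝ) (U L : List ℝ) (s : St) (t : ℕ) (Φ : St × ℕ → ℝ≥0∞) (δ : ℝ≥0∞)
    (h : ∀ (M : ℝ) t', t' ≤ t + 16 →
      Φ (mk [if 0 ≤ J * c - 4 * M ∧ J * c - 4 * M < 4 then f else 0] U [] L [J] [M] [] (pw 1)
        [B] [] [J * c - 4 * M] [] s, t') ≤ δ) :
    wp Φ (exec (MSG c) (mk [f] U [] L [J] [] [] [] [B] [] [] [] s, t)) ≤ δ := by
  simp only [MSG, exec, G.bind, wp, Ex.val, Ex.ops, mk_0, mk_11, mk_10, mk_5, mk_7, mk_4,
    upd_0, upd_11, upd_10, upd_5, upd_7, List.headD_cons, List.tail_cons]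
  refine iSup_le fun _ => iSup_le fun M => ?_
  have hp : ([1] : List ℝ) = pw 1 := by simp [pw]
  by_cases h1 : 0 ≤ J * c - 4 * M
  · by_cases h2 : 0 ≤ J * c - 4 * M - 4
    · have h3 : ¬ (0 ≤ J * c - 4 * M ∧ J * c - 4 * M < 4) := by
        rintro ⟨-, h5⟩; linarith
      simp only [G.bind, wp, Ex.val, Ex.ops, mk_0, mk_11, mk_10, mk_5, mk_7, mk_4,
        upd_0, upd_11, upd_10, upd_5, upd_7, List.headD_cons, List.tail_cons, h1, h2, if_true]
      rw [hp]
      have := h M (t + 16) (by omega)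
      rw [if_neg h3] at this
      refine le_trans (le_of_eq ?_) (h M (t + 15) (by omega))
      rw [if_neg h3]
    · have h3 : (0 ≤ J * c - 4 * M ∧ J * c - 4 * M < 4) := by
        constructor
        · exact h1
        · push Not at h2; linarith
      simp only [G.bind, wp, Ex.val, Ex.ops, mk_0, mk_11, mk_10, mk_5, mk_7, mk_4,
        upd_0, upd_11, upd_10, upd_5, upd_7, List.headD_cons, List.tail_cons, h1, h2, if_true,
        if_false]
      rw [hp]
      refine le_trans (le_of_eq ?_) (h M (t + 14) (by omega))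
      rw [if_pos h3]
  · have h2 : ¬ 0 ≤ J * c - 4 * M - 4 := by
      push Not at h1 ⊢; linarith
    have h3 : ¬ (0 ≤ J * c - 4 * M ∧ J * c - 4 * M < 4) := by
      rintro ⟨h5, -⟩; exact h1 h5
    simp only [G.bind, wp, Ex.val, Ex.ops, mk_0, mk_11, mk_10, mk_5, mk_7, mk_4,
      upd_0, upd_11, upd_10, upd_5, upd_7, List.headD_cons, List.tail_cons, h1, h2,
      if_false]
    rw [hp]
    refine le_trans (le_of_eq ?_) (h M (t + 15) (by omega))
    rw [if_neg h3]

end Pool.Agent.IPR
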