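import Pool.Agent.IPR.Defs

namespace Pool.Agent.IPR

open scoped ENNReal

variable {α β γ : Type}

/-- Worst case expectation of `f`: supremum over answers, average over coins. -/
noncomputable def wp (f : α → ℝ≥0∞) : G α → ℝ≥0∞
  | .ret a => f a
  | .flip k => (wp f (k false) + wp f (k true)) / 2
  | .ask _ k => ⨆ y, wp f (k y)
  | .qry _ k => ⨆ b, wp f (k b)

theorem wp_bind (t : G α) (g : α → G β) (f : β → ℝ≥0∞) :
    wp f (t.bind g) = wp (fun a => wp f (g a)) t := by
  induction t with
  | ret a => rfl
  | flip k ih => simp only [G.bind, wp, ih]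
  | ask w k ih => simp only [G.bind, wp, ih]
  | qry w k ih => simp only [G.bind, wp, ih]

theorem wp_mono {f g : α → ℝ≥0∞} (h : ∀ a, f a ≤ g a) (t : G α) : wp f t ≤ wp g t := by
  induction t with
  | ret a => exact h a
  | flip k ih => exact ENNReal.div_le_div_right (add_le_add (ih false) (ih true)) 2
  | ask w k ih => exact iSup_mono ih
  | qry w k ih => exact iSup_mono ih

theorem wp_le_of_all {f : α → ℝ≥0∞} {c : ℝ≥0∞} {t : G α} (h : t.all fun a => f a ≤ c) :
    wp f t ≤ c := by
  induction t with
  | ret a => exact h
  | flip k ih =>
    have h1 := ih false (h false)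
    have h2 := ih true (h true)
    calc (wp f (k false) + wp f (k true)) / 2 ≤ (c + c) / 2 :=
          ENNReal.div_le_div_right (add_le_add h1 h2) 2
      _ = c := by rw [← two_mul, mul_comm, mul_div_assoc, ENNReal.div_self (by simp) (by simp),
          mul_one]
  | ask w k ih => exact iSup_le fun y => ih y (h y)
  | qry w k ih => exact iSup_le fun y => ih y (h y)

theorem all_mono {P Q : α → Prop} (h : ∀ a, P a → Q a) {t : G α} (ht : t.all P) : t.all Q := by
  induction t with
  | ret a => exact h a ht
  | flip k ih => exact fun b => ih b (ht b)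
  | ask w k ih => exact fun b => ih b (ht b)
  | qry w k ih => exact fun b => ih b (ht b)

theorem all_bind {Q : β → Prop} {t : G α} {g : α → G β} :
    (t.bind g).all Q ↔ t.all fun a => (g a).all Q := by
  induction t with
  | ret a => rfl
  | flip k ih => exact forall_congr' fun b => ih b
  | ask w k ih => exact forall_congr' fun b => ih b
  | qry w k ih => exact forall_congr' fun b => ih b

theorem all_and {P Q : α → Prop} {t : G α} (h1 : t.all P) (h2 : t.all Q) :
    t.all fun a => P a ∧ Q a := by
  induction t with
  | ret a => exact ⟨h1, h2⟩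
  | flip k ih => exact fun b => ih b (h1 b) (h2 b)
  | ask w k ih => exact fun b => ih b (h1 b) (h2 b)
  | qry w k ih => exact fun b => ih b (h1 b) (h2 b)

theorem all_of_wp_eq_zero {Q : α → Prop} [DecidablePred Q] {t : G α}
    (h : wp (fun a => if Q a then 0 else 1) t = 0) : t.all Q := by
  induction t with
  | ret a =>
    by_contra hq
    simp only [G.all] at hq
    simp [wp, hq] at h
  | flip k ih =>
    simp only [wp, ENNReal.div_eq_zero_iff, add_eq_zero] at h
    rcases h with ⟨h1, h2⟩ | h
    · intro b; cases b
      · exact ih _ h1
      · exact ih _ h2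
    · simp at h
  | ask w k ih =>
    simp only [wp, ENNReal.iSup_eq_zero] at h
    exact fun y => ih y (h y)
  | qry w k ih =>
    simp only [wp, ENNReal.iSup_eq_zero] at h
    exact fun y => ih y (h y)

theorem bind_ret (t : G α) : t.bind G.ret = t := by
  induction t with
  | ret a => rfl
  | flip k ih => simp only [G.bind, ih]
  | ask w k ih => simp only [G.bind, ih]
  | qry w k ih => simp only [G.bind, ih]

theorem bind_assoc (t : G α) (g : α → G β) (h : β → G γ) :
    (t.bind g).bind h = t.bind fun a => (g a).bind h := by
  induction t with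
  | ret a => rfl
  | flip k ih => simp only [G.bind, ih]
  | ask w k ih => simp only [G.bind, ih]
  | qry w k ih => simp only [G.bind, ih]

theorem iter_add (f : α → G α) (m n : ℕ) (x : α) :
    iter f (m + n) x = (iter f m x).bind (iter f n) := by
  induction m generalizing x with
  | zero => simp [iter, G.bind]
  | succ m ih =>
    rw [Nat.succ_add]
    simp only [iter, bind_assoc]
    congr 1
    funext y
    exact ih y

theorem pr_nonneg (A : Set (List Bool)) (P : List ℝ → ℝ) (h : List ℝ) (t : G (St × ℕ)) :
    0 ≤ pr A P h t := by
  induction t generalizing h with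
  | ret a => simp only [pr]; split_ifs <;> norm_num
  | flip k ih => simp only [pr]; have := ih false h; have := ih true h; linarith
  | ask w k ih => exact ih _ _
  | qry w k ih => exact ih _ _

theorem pr_le_one (A : Set (List Bool)) (P : List ℝ → ℝ) (h : List ℝ) (t : G (St × ℕ)) :
    pr A P h t ≤ 1 := by
  induction t generalizing h with
  | ret a => simp only [pr]; split_ifs <;> norm_num
  | flip k ih => simp only [pr]; have := ih false h; have := ih true h; linarith
  | ask w k ih => exact ih _ _
  | qry w k ih => exact ih _ _

open Classical in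
theorem pr_le_wp (A : Set (List Bool)) (P : List ℝ → ℝ) (h : List ℝ) (t : G (St × ℕ)) :
    ENNReal.ofReal (pr A P h t) ≤ wp (fun a => if Acc a then 1 else 0) t := by
  induction t generalizing h with
  | ret a =>
    simp only [pr, wp]
    split_ifs <;> simp
  | flip k ih =>
    simp only [pr, wp]
    rw [ENNReal.ofReal_div_of_pos (by norm_num), ENNReal.ofReal_add (pr_nonneg _ _ _ _)
      (pr_nonneg _ _ _ _)]
    have : ENNReal.ofReal 2 = 2 := by simp
    rw [this]
    exact ENNReal.div_le_div_right (add_le_add (ih false h) (ih true h)) 2
  | ask w k ih =>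
    exact (ih _ _).trans (le_iSup (fun y => wp (fun a => if Acc a then (1 : ℝ≥0∞) else 0) (k y)) _)
  | qry w k ih =>
    exact (ih _ _).trans (le_iSup (fun y => wp (fun a => if Acc a then (1 : ℝ≥0∞) else 0) (k y)) _)

/-- All coin outcomes satisfy `Q` (which also sees the final history) against the prover `P`
with the oracle `A`. -/
def hp (A : Set (List Bool)) (P : List ℝ → ℝ) : List ℝ → G α → (α → List ℝ → Prop) → Prop
  | h, .ret a, Q => Q a h
  | h, .flip k, Q => ∀ b, hp A P h (k b) Q
  | h, .ask w k, Q => hp A P (w :: h) (k (P (w :: h))) Q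
  | h, .qry w k, Q => ∀ b, (b = true ↔ w ∈ emb A) → hp A P h (k b) Q

theorem hp_bind {A : Set (List Bool)} {P : List ℝ → ℝ} {h : List ℝ} {t : G α} {g : α → G β}
    {Q : β → List ℝ → Prop} :
    hp A P h (t.bind g) Q ↔ hp A P h t fun a h' => hp A P h' (g a) Q := by
  induction t generalizing h with
  | ret a => rfl
  | flip k ih => exact forall_congr' fun b => ih b
  | ask w k ih => exact ih _
  | qry w k ih => exact forall_congr' fun b => imp_congr_right fun _ => ih b

theorem hp_mono {A : Set (List Bool)} {P : List ℝ → ℝ} {h : List ℝ} {t : G α}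
    {Q R : α → List ℝ → Prop} (hQR : ∀ a h, Q a h → R a h) (ht : hp A P h t Q) :
    hp A P h t R := by
  induction t generalizing h with
  | ret a => exact hQR a h ht
  | flip k ih => exact fun b => ih b (ht b)
  | ask w k ih => exact ih _ ht
  | qry w k ih => exact fun b hb => ih b (ht b hb)

theorem pr_eq_one_iff {A : Set (List Bool)} {P : List ℝ → ℝ} {h : List ℝ} {t : G (St × ℕ)} :
    pr A P h t = 1 ↔ hp A P h t fun a _ => Acc a := by
  classical
  induction t generalizing h with
  | ret a =>
    simp only [pr, hp]
    split_ifs with h1 <;> simp [h1]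
  | flip k ih =>
    simp only [pr, hp]
    have h1 := pr_le_one A P h (k false)
    have h2 := pr_le_one A P h (k true)
    constructor
    · intro h3 b
      cases b
      · exact (ih false).1 (by linarith)
      · exact (ih true).1 (by linarith)
    · intro h3
      rw [(ih false).2 (h3 false), (ih true).2 (h3 true)]
      norm_num
  | ask w k ih => exact ih _
  | qry w k ih =>
    simp only [pr, hp]
    rw [ih]
    constructor
    · intro h1 b hb
      have : b = decide (w ∈ emb A) := by
        cases b
        · by_cases hw : w ∈ emb A
          · exact absurd (hb.2 hw) (by simp)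
          · simp [hw]
        · simp [hb.1 rfl]
      rw [this]; exact h1
    · intro h1
      exact h1 _ (by simp)

/-- All outcomes with true oracle answers, whatever the coins and the prover say. -/
def allA (A : Set (List Bool)) (Q : α → Prop) : G α → Prop
  | .ret a => Q a
  | .flip k => ∀ b, allA A Q (k b)
  | .ask _ k => ∀ y, allA A Q (k y)
  | .qry w k => ∀ b, (b = true ↔ w ∈ emb A) → allA A Q (k b)

theorem allA_of_all {A : Set (List Bool)} {Q : α → Prop} {t : G α} (h : t.all Q) :
    allA A Q t := by
  induction t with
  | ret a => exact h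
  | flip k ih => exact fun b => ih b (h b)
  | ask w k ih => exact fun b => ih b (h b)
  | qry w k ih => exact fun b _ => ih b (h b)

theorem allA_and {A : Set (List Bool)} {P Q : α → Prop} {t : G α} (h1 : allA A P t)
    (h2 : allA A Q t) : allA A (fun a => P a ∧ Q a) t := by
  induction t with
  | ret a => exact ⟨h1, h2⟩
  | flip k ih => exact fun b => ih b (h1 b) (h2 b)
  | ask w k ih => exact fun b => ih b (h1 b) (h2 b)
  | qry w k ih => exact fun b hb => ih b (h1 b hb) (h2 b hb)

theorem allA_mono {A : Set (List Bool)} {P Q : α → Prop} (h : ∀ a, P a → Q a) {t : G α}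
    (ht : allA A P t) : allA A Q t := by
  induction t with
  | ret a => exact h a ht
  | flip k ih => exact fun b => ih b (ht b)
  | ask w k ih => exact fun b => ih b (ht b)
  | qry w k ih => exact fun b hb => ih b (ht b hb)

theorem allA_bind {A : Set (List Bool)} {Q : β → Prop} {t : G α} {g : α → G β} :
    allA A Q (t.bind g) ↔ allA A (fun a => allA A Q (g a)) t := by
  induction t with
  | ret a => rfl
  | flip k ih => exact forall_congr' fun b => ih b
  | ask w k ih => exact forall_congr' fun b => ih b
  | qry w k ih => exact forall_congr' fun b => imp_congr_right fun _ => ih b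

end Pool.Agent.IPR
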